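import Pool.Agent.Helper88.TMPass

/-!
A fixed one-tape machine with undecidable halting problem on a simple family of inputs.
-/

namespace Pool.Agent.Helper88

open Turing

namespace Undec

open Nat.Partrec (Code)

/-- Exponent of the largest power of two below `n`. -/
def lg (n : ℕ) : ℕ := Nat.findGreatest (fun k => 2 ^ k ≤ n) n

theorem lg_pow (j : ℕ) : lg (2 ^ j) = j := by
  unfold lg
  rw [Nat.findGreatest_eq_iff]
  refine ⟨j.lt_two_pow_self.le, fun _ => le_rfl, ?_⟩
  intro n hn _ h
  exact absurd ((Nat.pow_le_pow_iff_right (by norm_num)).mp h) (by omega)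

theorem primrec_pow2 : Primrec (fun k : ℕ => 2 ^ k) := by
  have h : Primrec (fun k : ℕ => (Nat.unpaired (· ^ ·)) (Nat.pair 2 k)) :=
    (Primrec.nat_iff.mpr Nat.Primrec.pow).comp
      (Primrec₂.natPair.comp (Primrec.const 2) Primrec.id)
  exact h.of_eq (fun k => by simp)

theorem primrec_lg : Primrec lg := by
  unfold lg
  refine Primrec.nat_findGreatest Primrec.id ?_
  exact Primrec.nat_le.comp (primrec_pow2.comp Primrec.snd) Primrec.fst

/-- The universal function, on exponents. -/
def F (n : ℕ) : Part ℕ := Code.eval (Denumerable.ofNat Code (lg n)) 0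

theorem partrec_F : Partrec F := by
  have h1 : Computable (fun n : ℕ => Denumerable.ofNat Code (lg n)) :=
    (Computable.ofNat Code).comp primrec_lg.to_comp
  exact Code.eval_part.comp h1 (Computable.const 0)

theorem F_pow (k : ℕ) : F (2 ^ k) = Code.eval (Denumerable.ofNat Code k) 0 := by
  rw [F, lg_pow]

/-- A list-function code for `F`. -/
theorem exists_listcode : ∃ c : ToPartrec.Code, ∀ k : ℕ,
    (c.eval [2 ^ k]).Dom ↔ (Code.eval (Denumerable.ofNat Code k) 0).Dom := by
  have h : @Nat.Partrec' 1 fun v => F v.head := Nat.Partrec'.part_iff₁.mpr partrec_F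
  obtain ⟨c, hc⟩ := ToPartrec.Code.exists_code h
  refine ⟨c, fun k => ?_⟩
  have := hc ⟨[2 ^ k], rfl⟩
  rw [← F_pow]
  have h2 : c.eval [2 ^ k] = pure <$> F (2 ^ k) := this
  rw [h2]
  rfl

theorem num_two_mul (n : ℕ) : ((2 * n : ℕ) : Num) = Num.bit0 (n : Num) := by
  rw [← Num.to_nat_inj, Num.to_of_nat, Num.cast_bit0, Num.to_of_nat]

theorem trNat_pow (k : ℕ) : PartrecToTM2.trNat (2 ^ k) =
    List.replicate k PartrecToTM2.Γ'.bit0 ++ [PartrecToTM2.Γ'.bit1] := by
  induction k with
  | zero => simp [PartrecToTM2.trNat]; rfl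
  | succ k ih =>
    rw [List.replicate_succ, List.cons_append, ← ih]
    unfold PartrecToTM2.trNat
    rw [pow_succ, mul_comm, num_two_mul]
    cases h : ((2 ^ k : ℕ) : Num) with
    | zero =>
      have h2 : (((2 ^ k : ℕ) : Num) : ℕ) = ((0 : Num) : ℕ) := by rw [h]; rfl
      rw [Num.to_of_nat] at h2
      simp at h2
    | pos p => rfl

open PartrecToTM2

/-- The stack machine for list functions, with its type unfolded. -/
def M2 : PartrecToTM2.Λ' → TM2.Stmt (fun _ : K' => Γ') PartrecToTM2.Λ' (Option Γ') :=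
  PartrecToTM2.tr

/-- Tape alphabet. -/
abbrev GT : Type := TM2to1.Γ' K' (fun _ : K' => Γ')

/-- Tape letters carrying one symbol of the main stack. -/
def gt (b : Bool) (a : Γ') : GT := (b, Function.update (fun _ => none) K'.main (some a))

theorem trInit_eq (k : ℕ) :
    (TM2to1.trInit K'.main (PartrecToTM2.trList [2 ^ k]) : List GT) =
      gt true Γ'.cons :: gt false Γ'.bit1 :: List.replicate k (gt false Γ'.bit0) := by
  have h1 : (PartrecToTM2.trList [2 ^ k]).reverse =
      Γ'.cons :: Γ'.bit1 :: List.replicate k Γ'.bit0 := by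
    simp [PartrecToTM2.trList, trNat_pow]
  have h2 : (List.map (fun a => ((false, Function.update (fun _ => none) K'.main (some a)) : GT))
      (Γ'.cons :: Γ'.bit1 :: List.replicate k Γ'.bit0)) =
      gt false Γ'.cons :: gt false Γ'.bit1 :: List.replicate k (gt false Γ'.bit0) := by
    simp only [List.map_cons, List.map_replicate]
    rfl
  unfold TM2to1.trInit
  simp only [h1]
  exact (congrArg (fun l : List GT => (true, l.headI.2) :: l.tail) h2)

theorem exists_TM0 : ∃ (Γ Λ : Type) (_ : Inhabited Γ) (_ : Fintype Γ) (_ : Inhabited Λ)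
    (N : TM0.Machine Γ Λ) (S : Set Λ) (x0 x1 x2 : Γ), S.Finite ∧ TM0.Supports N S ∧
    ∀ k, (TM0.eval N (x0 :: x1 :: List.replicate k x2)).Dom ↔
      (Code.eval (Denumerable.ofNat Code k) 0).Dom := by
  classical
  obtain ⟨c, hc⟩ := exists_listcode
  let inh : Inhabited PartrecToTM2.Λ' := ⟨PartrecToTM2.trNormal c Cont'.halt⟩
  have hsup2 : TM2.Supports M2 (PartrecToTM2.codeSupp c Cont'.halt) :=
    PartrecToTM2.tr_supports c Cont'.halt
  have hsup1 := TM2to1.tr_supports M2 hsup2
  have hsup0 := TM1to0.tr_supports (TM2to1.tr M2) hsup1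
  have fK : Fintype K' := ⟨{K'.main, K'.rev, K'.aux, K'.stack}, fun x => by cases x <;> simp⟩
  have fG : Fintype GT := inferInstanceAs (Fintype (Bool × (∀ _ : K', Option Γ')))
  refine ⟨GT, _, inferInstance, fG, inferInstance, TM1to0.tr (TM2to1.tr M2), _,
    gt true Γ'.cons, gt false Γ'.bit1, gt false Γ'.bit0,
    Finset.finite_toSet _, hsup0, fun k => ?_⟩
  rw [TM1to0.tr_eval, ← trInit_eq, TM2to1.tr_eval_dom, ← hc]
  have h1 : (TM2.eval M2 K'.main (PartrecToTM2.trList [2 ^ k])).Dom ↔
      (StateTransition.eval (TM2.step PartrecToTM2.tr) (PartrecToTM2.init c [2 ^ k])).Dom := by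
    have h2 : PartrecToTM2.init c [2 ^ k] = TM2.init K'.main (PartrecToTM2.trList [2 ^ k]) := by
      unfold PartrecToTM2.init TM2.init
      congr 1
      funext x
      cases x <;> rfl
    rw [h2]
    rfl
  rw [h1, PartrecToTM2.tr_eval]
  rfl

end Undec

end Pool.Agent.Helper88
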