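import Pool.Agent.Helper72.BA.Stubs

/-!
MP_3dd6d4_an, module L8: separated windows.
-/

set_option autoImplicit false

open MeasureTheory Complex FourierTransform Filter Topology
open scoped ENNReal NNReal ComplexConjugate

noncomputable section

namespace Helper72.BA.P

open Helper72.BA

namespace L8

/-- Weighted power inequality. -/
lemma weighted_pow (q : ℕ) (hq : 1 ≤ q) : ∃ C : ℝ, 1 ≤ C ∧ ∀ (S : Finset ℕ) (y : ℕ → ℝ) (y0 : ℝ),
    (∀ m, 0 ≤ y m) → 0 ≤ y0 →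
    (∑ m ∈ S, y m + y0) ^ q ≤ C * (∑ m ∈ S, (Real.sqrt 2) ^ m * y m ^ q + y0 ^ q) := by
  have hq' : (q : ℝ) ≠ 0 := by
    have : (1 : ℝ) ≤ q := by exact_mod_cast hq
    linarith
  set r : ℝ := (2 : ℝ) ^ (1 / (2 * q : ℝ)) with hr
  have hr1 : 1 < r := by
    apply Real.one_lt_rpow (by norm_num)
    positivity
  have hrq : r ^ q = Real.sqrt 2 := by
    rw [hr, ← Real.rpow_natCast, ← Real.rpow_mul (by norm_num), Real.sqrt_eq_rpow]
    congr 1
    field_simp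
  have hr0 : 0 < r := by linarith
  have hri : r⁻¹ < 1 := inv_lt_one_of_one_lt₀ hr1
  have hri0 : 0 < r⁻¹ := inv_pos.mpr hr0
  set K : ℝ := (1 - r⁻¹)⁻¹ with hK
  have hK0 : 0 < K := inv_pos.mpr (by linarith)
  have hK1 : 1 ≤ K := by
    rw [hK]
    rw [one_le_inv₀ (by linarith)]
    linarith
  have hgeom : ∀ S : Finset ℕ, ∑ m ∈ S, (r⁻¹) ^ m ≤ K := by
    intro S
    rw [hK, ← tsum_geometric_of_lt_one hri0.le hri]
    exact (summable_geometric_of_lt_one hri0.le hri).sum_le_tsum S (fun i _ => by positivity)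
  refine ⟨2 ^ (q - 1) * K ^ q, ?_, ?_⟩
  · have h1 : (1 : ℝ) ≤ 2 ^ (q - 1) := one_le_pow₀ (by norm_num)
    have h2 : (1 : ℝ) ≤ K ^ q := one_le_pow₀ hK1
    nlinarith
  intro S y y0 hy hy0
  have hsum : (∑ m ∈ S, y m) ^ q ≤ K ^ q * ∑ m ∈ S, (Real.sqrt 2) ^ m * y m ^ q := by
    rcases S.eq_empty_or_nonempty with hS | hS
    · subst hS
      simp only [Finset.sum_empty, mul_zero]
      rw [zero_pow (by omega)]
    obtain ⟨m0, hm0, hmax⟩ := Finset.exists_max_image S (fun m => r ^ m * y m) hS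
    set t := r ^ m0 * y m0 with ht
    have ht0 : 0 ≤ t := mul_nonneg (by positivity) (hy m0)
    have h1 : ∑ m ∈ S, y m ≤ K * t := by
      calc ∑ m ∈ S, y m ≤ ∑ m ∈ S, (r⁻¹) ^ m * t := by
            apply Finset.sum_le_sum
            intro m hm
            have h2 := hmax m hm
            have h3 : y m = (r⁻¹) ^ m * (r ^ m * y m) := by
              rw [← mul_assoc, ← mul_pow, inv_mul_cancel₀ hr0.ne', one_pow, one_mul]
            rw [h3]
            exact mul_le_mul_of_nonneg_left h2 (by positivity)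
        _ = (∑ m ∈ S, (r⁻¹) ^ m) * t := by rw [Finset.sum_mul]
        _ ≤ K * t := mul_le_mul_of_nonneg_right (hgeom S) ht0
    calc (∑ m ∈ S, y m) ^ q ≤ (K * t) ^ q :=
          pow_le_pow_left₀ (Finset.sum_nonneg (fun m _ => hy m)) h1 q
      _ = K ^ q * t ^ q := mul_pow _ _ _
      _ ≤ K ^ q * ∑ m ∈ S, (Real.sqrt 2) ^ m * y m ^ q := by
          apply mul_le_mul_of_nonneg_left _ (by positivity)
          have h2 : t ^ q = (Real.sqrt 2) ^ m0 * y m0 ^ q := by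
            rw [ht, mul_pow, ← pow_mul, mul_comm m0 q, pow_mul, hrq]
          rw [h2]
          exact Finset.single_le_sum (f := fun m => (Real.sqrt 2) ^ m * y m ^ q)
            (fun m _ => mul_nonneg (by positivity) (pow_nonneg (hy m) q)) hm0
  have hadd := add_pow_le (Finset.sum_nonneg (fun m (_ : m ∈ S) => hy m)) hy0 q
  have h2 : y0 ^ q ≤ K ^ q * y0 ^ q := by
    have h3 : (1 : ℝ) ≤ K ^ q := one_le_pow₀ hK1
    have h4 : 0 ≤ y0 ^ q := pow_nonneg hy0 q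
    nlinarith
  calc (∑ m ∈ S, y m + y0) ^ q ≤ 2 ^ (q - 1) * ((∑ m ∈ S, y m) ^ q + y0 ^ q) := hadd
    _ ≤ 2 ^ (q - 1) * (K ^ q * ∑ m ∈ S, (Real.sqrt 2) ^ m * y m ^ q + K ^ q * y0 ^ q) := by
        apply mul_le_mul_of_nonneg_left _ (by positivity)
        exact add_le_add hsum h2
    _ = _ := by ring

lemma nice_sum {ι : Type*} (s : Finset ι) (F : ι → ℂ → ℂ) (h : ∀ i ∈ s, Nice (F i)) :
    Nice (fun z => ∑ i ∈ s, F i z) := by
  classical
  refine ⟨Finset.measurable_sum s (fun i hi => (h i hi).meas),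
    integrable_finsetSum s (fun i hi => (h i hi).int), ?_⟩
  have hb : ∀ i, ∃ C : ℝ, i ∈ s → ∀ z, ‖F i z‖ ≤ C := by
    intro i
    by_cases hi : i ∈ s
    · obtain ⟨C, hC⟩ := (h i hi).bdd
      exact ⟨C, fun _ => hC⟩
    · exact ⟨0, fun hi' => absurd hi' hi⟩
  choose C hC using hb
  refine ⟨∑ i ∈ s, C i, fun z => ?_⟩
  exact (norm_sum_le _ _).trans (Finset.sum_le_sum (fun i hi => hC i hi z))

lemma nice_gj (n : ℕ) (j : ℤ) {f : ℂ → ℂ} (hf : Nice f) : Nice (gj n j f) :=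
  nice_cv (ker_KK n j) hf

lemma nice_gW (n : ℕ) (W : Finset ℤ) {f : ℂ → ℂ} (hf : Nice f) : Nice (gW n W f) :=
  nice_sum W (fun j => gj n j f) (fun j _ => nice_gj n j hf)

lemma nrm_ne_top {q : ℕ} (hq : 1 ≤ q) {f : ℂ → ℂ} (hf : Nice f) : nrm q f ≠ ∞ := by
  obtain ⟨C, hC⟩ := hf.bdd
  obtain ⟨q', rfl⟩ : ∃ q', q = q' + 1 := ⟨q - 1, by omega⟩
  have h1 : nrm (q' + 1) f ≤ ENNReal.ofReal C ^ q' * ∫⁻ z, ‖f z‖ₑ := by
    rw [nrm, ← lintegral_const_mul _ hf.meas.enorm]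
    apply lintegral_mono
    intro z
    simp only
    rw [pow_succ]
    gcongr
    rw [← ofReal_norm]
    exact ENNReal.ofReal_le_ofReal (hC z)
  refine ne_top_of_le_ne_top ?_ h1
  exact ENNReal.mul_ne_top (ENNReal.pow_ne_top ENNReal.ofReal_ne_top) hf.int.2.ne

/-! ### windows -/

/-- the union of the first `l` windows -/
def V (a b : ℕ → ℤ) (l : ℕ) : Finset ℤ := (Finset.range l).biUnion (fun i => Finset.Ico (a i) (b i))

section windows

variable {a b : ℕ → ℤ} {B J : ℕ} (hab : ∀ l, a l ≤ b l ∧ b l ≤ a l + B ∧ b l + J ≤ a (l + 1))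

include hab

lemma a_mono : Monotone a := by
  apply monotone_nat_of_le_succ
  intro l
  have := hab l
  omega

lemma b_lt {i l : ℕ} (h : i < l) : b i + J ≤ a l := by
  have h1 := (hab i).2.2
  have h2 := a_mono hab (show i + 1 ≤ l from h)
  omega

lemma win_disj (s : Set ℕ) : s.PairwiseDisjoint (fun i => Finset.Ico (a i) (b i)) := by
  intro i _ l _ hil
  rw [Function.onFun, Finset.disjoint_left]
  intro x hx hx'
  rw [Finset.mem_Ico] at hx hx'
  rcases lt_or_gt_of_ne hil with h | h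
  · have := b_lt hab h
    omega
  · have := b_lt hab h
    omega

lemma sum_V {M : Type*} [AddCommMonoid M] (F : ℤ → M) (l : ℕ) :
    ∑ i ∈ Finset.range l, ∑ j ∈ Finset.Ico (a i) (b i), F j = ∑ j ∈ V a b l, F j :=
  (Finset.sum_biUnion (win_disj hab _)).symm

lemma V_filter {l M : ℕ} (hl : l ≤ M) (c : ℤ) (hc : c ≤ a l) :
    (V a b M).filter (fun i => i < c) = (V a b l).filter (fun i => i < c) := by
  ext x
  simp only [V, Finset.mem_filter, Finset.mem_biUnion, Finset.mem_range, Finset.mem_Ico]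
  constructor
  · rintro ⟨⟨i, hi, h1, h2⟩, hx⟩
    refine ⟨⟨i, ?_, h1, h2⟩, hx⟩
    by_contra hil
    push Not at hil
    have := a_mono hab hil
    omega
  · rintro ⟨⟨i, hi, h1, h2⟩, hx⟩
    exact ⟨⟨i, by omega, h1, h2⟩, hx⟩

lemma V_lt {l : ℕ} {x : ℤ} (hx : x ∈ V a b l) : x + J < a l := by
  simp only [V, Finset.mem_biUnion, Finset.mem_range, Finset.mem_Ico] at hx
  obtain ⟨i, hi, h1, h2⟩ := hx
  have := b_lt hab hi
  omega

/-- decomposition of the low part -/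
lemma decomp (n : ℕ) {m0 M : ℕ} (hB : B ≤ m0) (f : ℂ → ℂ) {l : ℕ} (hl : l < M) {j : ℤ}
    (hj : j ∈ Finset.Ico (a l) (b l)) (z : ℂ) :
    ‖∑ i ∈ Finset.range l, gW n (Finset.Ico (a i) (b i)) f z‖ ≤
      ∑ m ∈ Finset.Ioc J m0, ‖gj n (j - m) f z‖ +
        ‖gW n ((V a b M).filter (fun i => i < j - m0)) f z‖ := by
  classical
  rw [Finset.mem_Ico] at hj
  have hbl := (hab l).2.1
  have h1 : ∑ i ∈ Finset.range l, gW n (Finset.Ico (a i) (b i)) f z =
      ∑ j ∈ V a b l, gj n j f z := sum_V hab (fun j => gj n j f z) l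
  rw [h1, V_filter hab hl.le (j - m0) (by omega),
    ← Finset.sum_filter_add_sum_filter_not (V a b l) (fun i => i < j - m0), add_comm]
  refine (norm_add_le _ _).trans (add_le_add ?_ le_rfl)
  refine (norm_sum_le _ _).trans ?_
  -- reindex
  have h2 : ∑ i ∈ (V a b l).filter (fun i => ¬ i < j - m0), ‖gj n i f z‖ =
      ∑ m ∈ ((V a b l).filter (fun i => ¬ i < j - m0)).image (fun i => (j - i).toNat),
        ‖gj n (j - m) f z‖ := by
    rw [Finset.sum_image]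
    · apply Finset.sum_congr rfl
      intro i hi
      rw [Finset.mem_filter] at hi
      have h3 := V_lt hab hi.1
      have h4 : (((j - i).toNat : ℕ) : ℤ) = j - i := Int.toNat_of_nonneg (by omega)
      rw [h4]
      congr 2
      omega
    · intro x hx y hy hxy
      simp only [Finset.coe_filter, Set.mem_ofPred_eq] at hx hy
      have h3 := V_lt hab hx.1
      have h4 := V_lt hab hy.1
      simp only at hxy
      omega
  rw [h2]
  apply Finset.sum_le_sum_of_subset_of_nonneg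
  · intro m hm
    rw [Finset.mem_image] at hm
    obtain ⟨i, hi, rfl⟩ := hm
    rw [Finset.mem_filter] at hi
    have h3 := V_lt hab hi.1
    rw [Finset.mem_Ioc]
    omega
  · intro m _ _
    exact norm_nonneg _

end windows

lemma toE (x y : ℂ) (q : ℕ) : ENNReal.ofReal (‖x‖ ^ q * ‖y‖ ^ 2) = ‖x‖ₑ ^ q * ‖y‖ₑ ^ 2 := by
  rw [ENNReal.ofReal_mul (by positivity), ENNReal.ofReal_pow (norm_nonneg _),
    ENNReal.ofReal_pow (norm_nonneg _), ofReal_norm, ofReal_norm]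

lemma geom_tail (J m0 : ℕ) : ∑ m ∈ Finset.Ioc J m0, (Real.sqrt 2) ^ m * (2 : ℝ) ^ (-(m : ℝ)) ≤
    4 * (2 : ℝ) ^ (-(1 / 2 * J : ℝ)) := by
  set ρ : ℝ := (Real.sqrt 2)⁻¹ with hρ
  have hs : Real.sqrt 2 * Real.sqrt 2 = 2 := Real.mul_self_sqrt (by norm_num)
  have hs0 : 0 < Real.sqrt 2 := Real.sqrt_pos.mpr (by norm_num)
  have hρ0 : 0 < ρ := inv_pos.mpr hs0
  have h43 : 4 / 3 ≤ Real.sqrt 2 := by
    apply Real.le_sqrt_of_sq_le
    norm_num
  have hρ1 : ρ ≤ 3 / 4 := by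
    rw [hρ, inv_le_comm₀ hs0 (by norm_num)]
    norm_num
    linarith
  have h1 : ∀ m : ℕ, (Real.sqrt 2) ^ m * (2 : ℝ) ^ (-(m : ℝ)) = ρ ^ m := by
    intro m
    have h5 : (2 : ℝ) ^ m = Real.sqrt 2 ^ m * Real.sqrt 2 ^ m := by rw [← mul_pow, hs]
    rw [Real.rpow_neg (by norm_num), Real.rpow_natCast, h5, hρ, inv_pow, mul_inv, ← mul_assoc,
      mul_inv_cancel₀ (by positivity), one_mul]
  have h2 : (2 : ℝ) ^ (-(1 / 2 * J : ℝ)) = ρ ^ J := by
    rw [Real.rpow_neg (by norm_num), hρ, inv_pow, Real.rpow_mul (by norm_num), ← Real.sqrt_eq_rpow,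
      Real.rpow_natCast]
  rw [h2]
  simp only [h1]
  have h3 : ∑ m ∈ Finset.Ioc J m0, ρ ^ m ≤ ρ ^ J * ∑ m ∈ Finset.range (m0 + 1), ρ ^ m := by
    rw [Finset.mul_sum]
    calc ∑ m ∈ Finset.Ioc J m0, ρ ^ m = ∑ m ∈ (Finset.Ioc J m0).image (fun m => m - J), ρ ^ J * ρ ^ m := by
          rw [Finset.sum_image]
          · apply Finset.sum_congr rfl
            intro m hm
            rw [Finset.mem_Ioc] at hm
            rw [← pow_add]
            congr 1
            omega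
          · intro x hx y hy hxy
            simp only [Finset.coe_Ioc, Set.mem_Ioc] at hx hy
            simp only at hxy
            omega
      _ ≤ ∑ m ∈ Finset.range (m0 + 1), ρ ^ J * ρ ^ m := by
          apply Finset.sum_le_sum_of_subset_of_nonneg
          · intro m hm
            rw [Finset.mem_image] at hm
            obtain ⟨i, hi, rfl⟩ := hm
            rw [Finset.mem_Ioc] at hi
            rw [Finset.mem_range]
            omega
          · intro m _ _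
            positivity
  have h4 : ∑ m ∈ Finset.range (m0 + 1), ρ ^ m ≤ 4 := by
    calc ∑ m ∈ Finset.range (m0 + 1), ρ ^ m ≤ ∑' m, ρ ^ m :=
          (summable_geometric_of_lt_one hρ0.le (by linarith)).sum_le_tsum _
            (fun i _ => by positivity)
      _ = (1 - ρ)⁻¹ := tsum_geometric_of_lt_one hρ0.le (by linarith)
      _ ≤ 4 := by
          rw [inv_le_comm₀ (by linarith) (by norm_num)]
          linarith
  calc _ ≤ ρ ^ J * ∑ m ∈ Finset.range (m0 + 1), ρ ^ m := h3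
    _ ≤ ρ ^ J * 4 := mul_le_mul_of_nonneg_left h4 (by positivity)
    _ = 4 * ρ ^ J := by ring

lemma sq_sum_le (W : Finset ℤ) (B : ℕ) (hW : W.card ≤ B) (g : ℤ → ℂ) :
    ‖∑ j ∈ W, g j‖ ^ 2 ≤ B * ∑ j ∈ W, ‖g j‖ ^ 2 := by
  calc ‖∑ j ∈ W, g j‖ ^ 2 ≤ (∑ j ∈ W, ‖g j‖) ^ 2 :=
        pow_le_pow_left₀ (norm_nonneg _) (norm_sum_le _ _) 2
    _ ≤ W.card * ∑ j ∈ W, ‖g j‖ ^ 2 := sq_sum_le_card_mul_sum_sq
    _ ≤ B * ∑ j ∈ W, ‖g j‖ ^ 2 := by
        apply mul_le_mul_of_nonneg_right _ (Finset.sum_nonneg (fun i _ => by positivity))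
        exact_mod_cast hW

/-- the cross terms -/
lemma cross (k : ℕ) (hk : 2 ≤ k) : ∃ C : ℝ, 0 < C ∧
    ∀ n : ℕ, 1 ≤ n → ∀ J B : ℕ, 1 ≤ B → 2 ^ B ≤ n → ∀ (M : ℕ) (a b : ℕ → ℤ)
      (_ : ∀ l, a l ≤ b l ∧ b l ≤ a l + B ∧ b l + J ≤ a (l + 1)),
      ∀ f : ℂ → ℂ, Nice f →
      ∑ l ∈ Finset.range M, ∫⁻ z, ‖∑ i ∈ Finset.range l, gW n (Finset.Ico (a i) (b i)) f z‖ₑ
          ^ (2 * k - 2) * ‖gW n (Finset.Ico (a l) (b l)) f z‖ₑ ^ 2 ≤
        ENNReal.ofReal (C * B * ((2 : ℝ) ^ (-(1 / 2 * J : ℝ)) + (n : ℝ) ^ (-(1 / 2) : ℝ)) *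
          (n : ℝ) ^ (2 * k - 2)) * nrm (2 * k) f +
        ENNReal.ofReal (C * B) * ((nrm (2 * k) (gW n (V a b M) f)) ^ (1 - 1 / k : ℝ) *
          (nrm (2 * k) f) ^ (1 / k : ℝ)) := by
  obtain ⟨C2, hC2, hw⟩ := weighted_pow (2 * k - 2) (by omega)
  obtain ⟨C3, hC3, hnear⟩ := near_lag k hk
  obtain ⟨C4, hC4, hfar⟩ := far_lag k hk
  have hC20 : 0 < C2 := by linarith
  refine ⟨C2 * (4 * C3 + C4), by positivity, ?_⟩
  intro n hn J B hB hBn M a b hab f hf
  -- choice of `m0`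
  obtain ⟨m0, hm0, hm0'⟩ : ∃ m0 : ℕ, n ≤ 2 ^ m0 ∧ 2 ^ m0 ≤ 2 * n := by
    have hex : ∃ m : ℕ, n ≤ 2 ^ m := ⟨n, Nat.lt_two_pow_self.le⟩
    classical
    refine ⟨Nat.find hex, Nat.find_spec hex, ?_⟩
    rcases Nat.eq_zero_or_pos (Nat.find hex) with h | h
    · rw [h]; omega
    · have h1 := Nat.find_min hex (show Nat.find hex - 1 < Nat.find hex by omega)
      have h2 : 2 ^ (Nat.find hex) = 2 * 2 ^ (Nat.find hex - 1) := by
        rw [← pow_succ']
        congr 1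
        omega
      omega
  have hBm0 : B ≤ m0 := by
    have h1 : 2 ^ B ≤ 2 ^ m0 := hBn.trans hm0
    exact (Nat.pow_le_pow_iff_right (by norm_num)).mp h1
  have hm0R : (2 : ℝ) ^ m0 ≤ 2 * n := by exact_mod_cast hm0'
  have hmR : ∀ m ≤ m0, (2 : ℝ) ^ m ≤ 2 * n := fun m hm =>
    (pow_le_pow_right₀ (by norm_num) hm).trans hm0R
  set q := 2 * k - 2 with hq
  set s2 := Real.sqrt 2 with hs2
  have hs20 : 0 ≤ s2 := Real.sqrt_nonneg 2
  have hmeasg : ∀ j : ℤ, Measurable (gj n j f) := fun j => (nice_gj n j hf).meas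
  have hmeasW : ∀ W : Finset ℤ, Measurable (gW n W f) := fun W => (nice_gW n W hf).meas
  -- the functions
  let Hn : ℕ → ℤ → ℂ → ℝ≥0∞ := fun m j z => ‖gj n (j - m) f z‖ₑ ^ q * ‖gj n j f z‖ₑ ^ 2
  let Hl : ℤ → ℂ → ℝ≥0∞ := fun j z =>
    ‖gW n ((V a b M).filter (fun i => i < j - m0)) f z‖ₑ ^ q * ‖gj n j f z‖ₑ ^ 2
  have hHn : ∀ m j, Measurable (Hn m j) := fun m j =>
    ((hmeasg _).enorm.pow_const q).mul ((hmeasg _).enorm.pow_const 2)
  have hHl : ∀ j, Measurable (Hl j) := fun j =>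
    ((hmeasW _).enorm.pow_const q).mul ((hmeasg _).enorm.pow_const 2)
  -- pointwise bound
  have hpt : ∀ l < M, ∀ z, ‖∑ i ∈ Finset.range l, gW n (Finset.Ico (a i) (b i)) f z‖ₑ ^ q *
      ‖gW n (Finset.Ico (a l) (b l)) f z‖ₑ ^ 2 ≤
      ENNReal.ofReal (B * C2) * ∑ j ∈ Finset.Ico (a l) (b l),
        (∑ m ∈ Finset.Ioc J m0, ENNReal.ofReal (s2 ^ m) * Hn m j z + Hl j z) := by
    intro l hl z
    set A := ∑ i ∈ Finset.range l, gW n (Finset.Ico (a i) (b i)) f z with hA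
    have h1 : ∀ j ∈ Finset.Ico (a l) (b l), ‖A‖ ^ q ≤ C2 * (∑ m ∈ Finset.Ioc J m0,
        s2 ^ m * ‖gj n (j - m) f z‖ ^ q +
          ‖gW n ((V a b M).filter (fun i => i < j - m0)) f z‖ ^ q) := by
      intro j hj
      have h2 := decomp hab n hBm0 f hl hj z
      exact (pow_le_pow_left₀ (norm_nonneg _) h2 q).trans
        (hw (Finset.Ioc J m0) (fun m => ‖gj n (j - m) f z‖) _ (fun m => norm_nonneg _)
          (norm_nonneg _))
    have hcard : (Finset.Ico (a l) (b l)).card ≤ B := by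
      rw [Int.card_Ico]
      have := (hab l).2.1
      omega
    have h2 : ‖gW n (Finset.Ico (a l) (b l)) f z‖ ^ 2 ≤
        B * ∑ j ∈ Finset.Ico (a l) (b l), ‖gj n j f z‖ ^ 2 :=
      sq_sum_le _ B hcard (fun j => gj n j f z)
    have h3 : ‖A‖ ^ q * ‖gW n (Finset.Ico (a l) (b l)) f z‖ ^ 2 ≤
        (B * C2) * ∑ j ∈ Finset.Ico (a l) (b l), (∑ m ∈ Finset.Ioc J m0,
          s2 ^ m * (‖gj n (j - m) f z‖ ^ q * ‖gj n j f z‖ ^ 2) +
          ‖gW n ((V a b M).filter (fun i => i < j - m0)) f z‖ ^ q * ‖gj n j f z‖ ^ 2) := by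
      calc ‖A‖ ^ q * ‖gW n (Finset.Ico (a l) (b l)) f z‖ ^ 2 ≤
          ‖A‖ ^ q * (B * ∑ j ∈ Finset.Ico (a l) (b l), ‖gj n j f z‖ ^ 2) :=
            mul_le_mul_of_nonneg_left h2 (by positivity)
        _ = B * ∑ j ∈ Finset.Ico (a l) (b l), ‖A‖ ^ q * ‖gj n j f z‖ ^ 2 := by
            rw [Finset.mul_sum, Finset.mul_sum, Finset.mul_sum]
            apply Finset.sum_congr rfl
            intro j _
            ring
        _ ≤ B * ∑ j ∈ Finset.Ico (a l) (b l), (C2 * (∑ m ∈ Finset.Ioc J m0,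
              s2 ^ m * ‖gj n (j - m) f z‖ ^ q +
              ‖gW n ((V a b M).filter (fun i => i < j - m0)) f z‖ ^ q)) * ‖gj n j f z‖ ^ 2 := by
            apply mul_le_mul_of_nonneg_left _ (Nat.cast_nonneg _)
            apply Finset.sum_le_sum
            intro j hj
            exact mul_le_mul_of_nonneg_right (h1 j hj) (by positivity)
        _ = _ := by
            rw [mul_assoc, Finset.mul_sum (a := C2)]
            congr 1
            apply Finset.sum_congr rfl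
            intro j _
            rw [mul_assoc, add_mul, Finset.sum_mul]
            congr 2
            exact Finset.sum_congr rfl (fun m _ => by ring)
    rw [← toE]
    refine (ENNReal.ofReal_le_ofReal h3).trans (le_of_eq ?_)
    rw [ENNReal.ofReal_mul (by positivity), ENNReal.ofReal_sum_of_nonneg]
    · congr 1
      apply Finset.sum_congr rfl
      intro j _
      rw [ENNReal.ofReal_add (Finset.sum_nonneg (fun m _ => by positivity)) (by positivity),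
        ENNReal.ofReal_sum_of_nonneg (fun m _ => by positivity), toE]
      congr 1
      apply Finset.sum_congr rfl
      intro m _
      rw [ENNReal.ofReal_mul (by positivity), toE]
    · intro j _
      have : 0 ≤ ∑ m ∈ Finset.Ioc J m0, s2 ^ m * (‖gj n (j - m) f z‖ ^ q * ‖gj n j f z‖ ^ 2) :=
        Finset.sum_nonneg (fun m _ => by positivity)
      positivity
  -- integrate
  have hint : ∀ l < M, ∫⁻ z, ‖∑ i ∈ Finset.range l, gW n (Finset.Ico (a i) (b i)) f z‖ₑ ^ q *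
      ‖gW n (Finset.Ico (a l) (b l)) f z‖ₑ ^ 2 ≤
      ENNReal.ofReal (B * C2) * ∑ j ∈ Finset.Ico (a l) (b l),
        (∑ m ∈ Finset.Ioc J m0, ENNReal.ofReal (s2 ^ m) * (∫⁻ z, Hn m j z) +
          (∫⁻ z, Hl j z)) := by
    intro l hl
    refine (lintegral_mono (hpt l hl)).trans (le_of_eq ?_)
    have hmeas1 : ∀ j, Measurable (fun z => ∑ m ∈ Finset.Ioc J m0,
        ENNReal.ofReal (s2 ^ m) * Hn m j z) := fun j =>
      Finset.measurable_sum _ (fun m _ => (hHn m j).const_mul _)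
    have hmeas2 : ∀ j, Measurable (fun z => ∑ m ∈ Finset.Ioc J m0,
        ENNReal.ofReal (s2 ^ m) * Hn m j z + Hl j z) := fun j => (hmeas1 j).add (hHl j)
    rw [lintegral_const_mul _ (Finset.measurable_sum _ (fun j _ => hmeas2 j)),
      lintegral_finsetSum _ (fun j _ => hmeas2 j)]
    congr 1
    apply Finset.sum_congr rfl
    intro j _
    rw [lintegral_add_left (hmeas1 j), lintegral_finsetSum _ (fun m _ => (hHn m j).const_mul _)]
    congr 1
    apply Finset.sum_congr rfl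
    intro m _
    rw [lintegral_const_mul _ (hHn m j)]
  -- sum over the windows
  have hsum : ∑ l ∈ Finset.range M, ∫⁻ z, ‖∑ i ∈ Finset.range l,
      gW n (Finset.Ico (a i) (b i)) f z‖ₑ ^ q * ‖gW n (Finset.Ico (a l) (b l)) f z‖ₑ ^ 2 ≤
      ENNReal.ofReal (B * C2) * (∑ m ∈ Finset.Ioc J m0, ENNReal.ofReal (s2 ^ m) *
        (∑ j ∈ V a b M, ∫⁻ z, Hn m j z) + (∑ j ∈ V a b M, ∫⁻ z, Hl j z)) := by
    calc _ ≤ ∑ l ∈ Finset.range M, ENNReal.ofReal (B * C2) * ∑ j ∈ Finset.Ico (a l) (b l),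
        (∑ m ∈ Finset.Ioc J m0, ENNReal.ofReal (s2 ^ m) * (∫⁻ z, Hn m j z) +
          (∫⁻ z, Hl j z)) :=
          Finset.sum_le_sum (fun l hl => hint l (Finset.mem_range.mp hl))
      _ = ENNReal.ofReal (B * C2) * ∑ j ∈ V a b M,
        (∑ m ∈ Finset.Ioc J m0, ENNReal.ofReal (s2 ^ m) * (∫⁻ z, Hn m j z) +
          (∫⁻ z, Hl j z)) := by
          rw [← Finset.mul_sum, sum_V hab (fun j => ∑ m ∈ Finset.Ioc J m0,
            ENNReal.ofReal (s2 ^ m) * (∫⁻ z, Hn m j z) + (∫⁻ z, Hl j z)) M]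
      _ = _ := by
          rw [Finset.sum_add_distrib, Finset.sum_comm]
          congr 2
          apply Finset.sum_congr rfl
          intro m _
          rw [Finset.mul_sum]
  refine hsum.trans ?_
  -- near part
  have hkR : (2 : ℝ) ≤ k := by exact_mod_cast hk
  have hk1 : (1 : ℝ) / 2 ≤ 1 - 1 / k := by
    have : (1 : ℝ) / k ≤ 1 / 2 := one_div_le_one_div_of_le (by norm_num) hkR
    linarith
  have hexp : ∀ m : ℕ, (2 : ℝ) ^ (-(2 * m * (1 - 1 / k) : ℝ)) ≤ (2 : ℝ) ^ (-(m : ℝ)) := by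
    intro m
    apply Real.rpow_le_rpow_of_exponent_le (by norm_num)
    have hm : (0 : ℝ) ≤ m := Nat.cast_nonneg m
    nlinarith
  have hn0 : (0 : ℝ) < n := by exact_mod_cast hn
  have hnear' : ∑ m ∈ Finset.Ioc J m0, ENNReal.ofReal (s2 ^ m) *
      (∑ j ∈ V a b M, ∫⁻ z, Hn m j z) ≤
      ENNReal.ofReal (4 * C3 * (2 : ℝ) ^ (-(1 / 2 * J : ℝ)) * (n : ℝ) ^ q) * nrm (2 * k) f := by
    calc _ ≤ ∑ m ∈ Finset.Ioc J m0, ENNReal.ofReal (s2 ^ m) *
          (ENNReal.ofReal (C3 * (n : ℝ) ^ q * (2 : ℝ) ^ (-(m : ℝ))) * nrm (2 * k) f) := by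
          apply Finset.sum_le_sum
          intro m hm
          rw [Finset.mem_Ioc] at hm
          gcongr
          refine (hnear n hn m (hmR m hm.2) (V a b M) f hf).trans ?_
          exact mul_le_mul_left (ENNReal.ofReal_le_ofReal
            (mul_le_mul_of_nonneg_left (hexp m) (by positivity))) _
      _ = ENNReal.ofReal (∑ m ∈ Finset.Ioc J m0, s2 ^ m *
            (C3 * (n : ℝ) ^ q * (2 : ℝ) ^ (-(m : ℝ)))) * nrm (2 * k) f := by
          rw [ENNReal.ofReal_sum_of_nonneg (fun m _ => by positivity), Finset.sum_mul]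
          apply Finset.sum_congr rfl
          intro m _
          rw [ENNReal.ofReal_mul (p := s2 ^ m) (by positivity)]
          exact (mul_assoc _ _ _).symm
      _ ≤ _ := by
          refine mul_le_mul_left (ENNReal.ofReal_le_ofReal ?_) _
          calc ∑ m ∈ Finset.Ioc J m0, s2 ^ m * (C3 * (n : ℝ) ^ q * (2 : ℝ) ^ (-(m : ℝ))) =
              C3 * (n : ℝ) ^ q * ∑ m ∈ Finset.Ioc J m0, s2 ^ m * (2 : ℝ) ^ (-(m : ℝ)) := by
                rw [Finset.mul_sum]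
                apply Finset.sum_congr rfl
                intro m _
                ring
            _ ≤ C3 * (n : ℝ) ^ q * (4 * (2 : ℝ) ^ (-(1 / 2 * J : ℝ))) :=
                mul_le_mul_of_nonneg_left (geom_tail J m0) (by positivity)
            _ = _ := by ring
  -- far part
  have hfar' : ∑ j ∈ V a b M, ∫⁻ z, Hl j z ≤ ENNReal.ofReal C4 *
      ((nrm (2 * k) (gW n (V a b M) f)) ^ (1 - 1 / k : ℝ) * (nrm (2 * k) f) ^ (1 / k : ℝ)) +
      ENNReal.ofReal (C4 * (n : ℝ) ^ (-(1 / 2) : ℝ) * (n : ℝ) ^ q) * nrm (2 * k) f := by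
    refine (hfar n hn m0 hm0 hm0R (V a b M) f hf).trans ?_
    rw [mul_assoc]
    refine add_le_add le_rfl (mul_le_mul_left (ENNReal.ofReal_le_ofReal ?_) _)
    rw [mul_assoc C4, mul_assoc C4]
    refine mul_le_mul_of_nonneg_left ?_ hC4.le
    rw [mul_comm]
    refine mul_le_mul_of_nonneg_right ?_ (by positivity)
    -- `2 ^ (-2 m0 (1-1/k)) ≤ n ^ (-1/2)`
    refine (hexp m0).trans ?_
    have h1 : (n : ℝ) ≤ (2 : ℝ) ^ m0 := by exact_mod_cast hm0
    have h2 : (1 : ℝ) ≤ n := by exact_mod_cast hn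
    calc (2 : ℝ) ^ (-(m0 : ℝ)) = ((2 : ℝ) ^ m0)⁻¹ := by
          rw [Real.rpow_neg (by norm_num), Real.rpow_natCast]
      _ ≤ (n : ℝ)⁻¹ := inv_anti₀ hn0 h1
      _ = (n : ℝ) ^ (-1 : ℝ) := by rw [Real.rpow_neg_one]
      _ ≤ (n : ℝ) ^ (-(1 / 2) : ℝ) := Real.rpow_le_rpow_of_exponent_le h2 (by norm_num)
  calc _ ≤ ENNReal.ofReal (B * C2) * (ENNReal.ofReal (4 * C3 * (2 : ℝ) ^ (-(1 / 2 * J : ℝ)) *
        (n : ℝ) ^ q) * nrm (2 * k) f + (ENNReal.ofReal C4 *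
      ((nrm (2 * k) (gW n (V a b M) f)) ^ (1 - 1 / k : ℝ) * (nrm (2 * k) f) ^ (1 / k : ℝ)) +
      ENNReal.ofReal (C4 * (n : ℝ) ^ (-(1 / 2) : ℝ) * (n : ℝ) ^ q) * nrm (2 * k) f)) :=
        mul_le_mul_right (add_le_add hnear' hfar') _
    _ = ENNReal.ofReal (B * C2 * (4 * C3 * (2 : ℝ) ^ (-(1 / 2 * J : ℝ)) * (n : ℝ) ^ q +
          C4 * (n : ℝ) ^ (-(1 / 2) : ℝ) * (n : ℝ) ^ q)) * nrm (2 * k) f +
        ENNReal.ofReal (B * C2 * C4) * ((nrm (2 * k) (gW n (V a b M) f)) ^ (1 - 1 / k : ℝ) *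
          (nrm (2 * k) f) ^ (1 / k : ℝ)) := by
        have hBC : (0 : ℝ) ≤ B * C2 := by positivity
        rw [ENNReal.ofReal_mul (p := B * C2) hBC, ENNReal.ofReal_mul (p := B * C2) hBC,
          ENNReal.ofReal_add (by positivity) (by positivity)]
        ring
    _ ≤ _ := by
        refine add_le_add (mul_le_mul_left (ENNReal.ofReal_le_ofReal ?_) _)
          (mul_le_mul_left (ENNReal.ofReal_le_ofReal ?_) _)
        · have h1 : (0 : ℝ) ≤ (2 : ℝ) ^ (-(1 / 2 * J : ℝ)) := by positivity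
          have h2 : (0 : ℝ) ≤ (n : ℝ) ^ (-(1 / 2) : ℝ) := by positivity
          have h3 : (0 : ℝ) ≤ (n : ℝ) ^ q := by positivity
          have h4 : (0 : ℝ) ≤ B * C2 := by positivity
          calc B * C2 * (4 * C3 * (2 : ℝ) ^ (-(1 / 2 * J : ℝ)) * (n : ℝ) ^ q +
              C4 * (n : ℝ) ^ (-(1 / 2) : ℝ) * (n : ℝ) ^ q) =
              (B * C2) * ((4 * C3 * (2 : ℝ) ^ (-(1 / 2 * J : ℝ)) +
                C4 * (n : ℝ) ^ (-(1 / 2) : ℝ)) * (n : ℝ) ^ q) := by ring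
            _ ≤ (B * C2) * (((4 * C3 + C4) * (2 : ℝ) ^ (-(1 / 2 * J : ℝ)) +
                (4 * C3 + C4) * (n : ℝ) ^ (-(1 / 2) : ℝ)) * (n : ℝ) ^ q) := by
                gcongr
                · linarith
                · linarith
            _ = _ := by ring
        · have h4 : (0 : ℝ) ≤ B * C2 := by positivity
          nlinarith

/-- Young's inequality in the form used to absorb. -/
lemma young (k : ℕ) (hk : 2 ≤ k) (η : ℝ) (hη : 0 < η) (D : ℝ) (hD : 0 ≤ D) (x y : ℝ≥0∞)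
    (hx : x ≠ ∞) (hy : y ≠ ∞) :
    ENNReal.ofReal D * (x ^ (1 - 1 / k : ℝ) * y ^ (1 / k : ℝ)) ≤
      ENNReal.ofReal η * x + ENNReal.ofReal (D ^ k * (η⁻¹) ^ (k - 1)) * y := by
  have hkR : (2 : ℝ) ≤ k := by exact_mod_cast hk
  have hk0 : (0 : ℝ) < k := by linarith
  have hθ0 : (0 : ℝ) < 1 / k := by positivity
  have hθ1 : (1 : ℝ) / k ≤ 1 / 2 := one_div_le_one_div_of_le (by norm_num) hkR
  obtain ⟨u, rfl⟩ : ∃ u : ℝ, x = ENNReal.ofReal u := ⟨x.toReal, (ENNReal.ofReal_toReal hx).symm⟩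
  obtain ⟨v, rfl⟩ : ∃ v : ℝ, y = ENNReal.ofReal v := ⟨y.toReal, (ENNReal.ofReal_toReal hy).symm⟩
  wlog hu : 0 ≤ u generalizing u
  · have h := this 0 ENNReal.ofReal_ne_top le_rfl
    rw [ENNReal.ofReal_of_nonpos (le_of_not_ge hu)]
    rwa [ENNReal.ofReal_zero] at h
  wlog hv : 0 ≤ v generalizing v
  · have h := this 0 ENNReal.ofReal_ne_top le_rfl
    rw [ENNReal.ofReal_of_nonpos (le_of_not_ge hv)]
    rwa [ENNReal.ofReal_zero] at h
  rw [ENNReal.ofReal_rpow_of_nonneg hu (by linarith), ENNReal.ofReal_rpow_of_nonneg hv hθ0.le,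
    ← ENNReal.ofReal_mul (by positivity), ← ENNReal.ofReal_mul hD, ← ENNReal.ofReal_mul hη.le,
    ← ENNReal.ofReal_mul (by positivity), ← ENNReal.ofReal_add (by positivity) (by positivity)]
  apply ENNReal.ofReal_le_ofReal
  have h1 := Real.geom_mean_le_arith_mean2_weighted (w₁ := 1 - 1 / k) (w₂ := 1 / k)
    (by linarith) hθ0.le (show 0 ≤ η * u by positivity)
    (show 0 ≤ D ^ k * (η⁻¹) ^ (k - 1) * v by positivity) (by ring)
  have h2 : (η * u) ^ (1 - 1 / k : ℝ) * (D ^ k * (η⁻¹) ^ (k - 1) * v) ^ (1 / k : ℝ) =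
      D * (u ^ (1 - 1 / k : ℝ) * v ^ (1 / k : ℝ)) := by
    rw [Real.mul_rpow hη.le hu, Real.mul_rpow (by positivity) hv,
      Real.mul_rpow (by positivity) (by positivity)]
    have h3 : (D ^ k) ^ (1 / k : ℝ) = D := by
      rw [← Real.rpow_natCast, ← Real.rpow_mul hD, mul_one_div_cancel hk0.ne', Real.rpow_one]
    have h4 : ((η⁻¹) ^ (k - 1)) ^ (1 / k : ℝ) = (η ^ (1 - 1 / k : ℝ))⁻¹ := by
      rw [← Real.rpow_natCast, ← Real.rpow_mul (by positivity), Real.inv_rpow hη.le]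
      congr 2
      have : ((k - 1 : ℕ) : ℝ) = k - 1 := by
        rw [Nat.cast_sub (by omega)]
        simp
      rw [this]
      field_simp
    rw [h3, h4]
    have h5 : η ^ (1 - 1 / k : ℝ) ≠ 0 := (Real.rpow_pos_of_pos hη _).ne'
    field_simp
  rw [h2] at h1
  refine h1.trans ?_
  have h6 : (1 - 1 / k : ℝ) * (η * u) ≤ 1 * (η * u) :=
    mul_le_mul_of_nonneg_right (by linarith) (by positivity)
  have h7 : (1 / k : ℝ) * (D ^ k * (η⁻¹) ^ (k - 1) * v) ≤ 1 * (D ^ k * (η⁻¹) ^ (k - 1) * v) :=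
    mul_le_mul_of_nonneg_right (by linarith) (by positivity)
  linarith

end L8

/-! ## MODULE L8 : separated windows -/
theorem separated (k : ℕ) (hk : 2 ≤ k) (ε : ℝ) (hε : 0 < ε) : ∃ C c : ℝ, ∃ J0 : ℕ, 0 < C ∧ 0 < c ∧
    ∀ n : ℕ, 1 ≤ n → ∀ J : ℕ, J0 ≤ J → ∀ B : ℕ, 1 ≤ B → 2 ^ B ≤ n → ∀ (M : ℕ) (a b : ℕ → ℤ)
      (_ : ∀ l, a l ≤ b l ∧ b l ≤ a l + B ∧ b l + J ≤ a (l + 1)),
      ∀ f : ℂ → ℂ, Nice f →
      nrm (2 * k) (fun z => ∑ l ∈ Finset.range M, gW n (Finset.Ico (a l) (b l)) f z) ≤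
        ENNReal.ofReal (1 + ε) * ∑ l ∈ Finset.range M, nrm (2 * k) (gW n (Finset.Ico (a l) (b l)) f)
        + ENNReal.ofReal (C * (B:ℝ) ^ k * ((2:ℝ) ^ (-(c * J)) + (n:ℝ) ^ (-c)) * (n:ℝ) ^ (2 * k - 2))
            * nrm (2 * k) f := by
  set δ : ℝ := min ε 1 / 4 with hδ
  have hδ0 : 0 < δ := by positivity
  have hδ1 : δ ≤ 1 / 4 := by
    have : min ε 1 ≤ 1 := min_le_right _ _
    linarith
  have hδε : (1 - δ)⁻¹ * (1 + δ) ≤ 1 + ε := by
    have h1 : 4 * δ ≤ ε := by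
      have : min ε 1 ≤ ε := min_le_left _ _
      linarith
    rw [inv_mul_le_iff₀ (by linarith)]
    nlinarith
  obtain ⟨C1, hC1, htel⟩ := telescoping k (by omega) δ hδ0
  obtain ⟨C2, hC2, hcross⟩ := L8.cross k hk
  obtain ⟨J0, hJ0⟩ : ∃ J0 : ℕ, 4 * k ≤ 2 ^ J0 := ⟨4 * k, Nat.lt_two_pow_self.le⟩
  refine ⟨2 * (C1 * C2 + (C1 * C2) ^ k * (δ⁻¹) ^ (k - 1)), 1 / 2, J0, by positivity, by norm_num, ?_⟩
  intro n hn J hJ B hB hBn M a b hab f hf
  have hn1 : (1 : ℝ) ≤ n := by exact_mod_cast hn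
  -- the sum is `g_V`
  have hV : (fun z => ∑ l ∈ Finset.range M, gW n (Finset.Ico (a l) (b l)) f z) =
      gW n (L8.V a b M) f := by
    funext z
    exact L8.sum_V hab (fun j => gj n j f z) M
  have hGtop : nrm (2 * k) (gW n (L8.V a b M) f) ≠ ∞ :=
    L8.nrm_ne_top (by omega) (L8.nice_gW n _ hf)
  have hftop : nrm (2 * k) f ≠ ∞ := L8.nrm_ne_top (by omega) hf
  -- telescoping
  have h1 := htel M (fun l => gW n (Finset.Ico (a l) (b l)) f) (fun l _ => L8.nice_gW n _ hf)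
    (by
      intro l _
      have h2 := integral_spec_zero n k (by omega) (L8.V a b l) (Finset.Ico (a l) (b l))
        (by
          intro i hi j hj
          rw [Finset.mem_Ico] at hj
          have h3 := L8.V_lt hab hi
          have h4 : ((2 : ℝ) * k - 1) ≤ 2 ^ (J0 : ℤ) / 2 := by
            have : (4 * k : ℝ) ≤ 2 ^ J0 := by exact_mod_cast hJ0
            rw [zpow_natCast]
            linarith
          have h5 : (0 : ℝ) < 2 ^ (i + 1) := by positivity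
          calc (2 * k - 1 : ℝ) * (2 : ℝ) ^ (i + 1) ≤ 2 ^ (J0 : ℤ) / 2 * (2 : ℝ) ^ (i + 1) :=
                mul_le_mul_of_nonneg_right h4 h5.le
            _ = (2 : ℝ) ^ ((J0 : ℤ) + i) := by
                rw [zpow_add₀ (by norm_num), zpow_add₀ (by norm_num), zpow_one]
                ring
            _ ≤ (2 : ℝ) ^ (j - 1) := by
                apply zpow_le_zpow_right₀ (by norm_num)
                omega) f hf
      have h6 : ∀ z, ∑ i ∈ Finset.range l, gW n (Finset.Ico (a i) (b i)) f z =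
          gW n (L8.V a b l) f z := fun z => L8.sum_V hab (fun j => gj n j f z) l
      simp only [h6]
      exact h2)
  rw [hV]
  rw [hV] at h1
  have h2 := hcross n hn J B hB hBn M a b hab f hf
  set N := nrm (2 * k) (gW n (L8.V a b M) f) with hN
  set F := nrm (2 * k) f with hF
  set S := ∑ l ∈ Finset.range M, nrm (2 * k) (gW n (Finset.Ico (a l) (b l)) f) with hS
  set E : ℝ := (2 : ℝ) ^ (-(1 / 2 * J : ℝ)) + (n : ℝ) ^ (-(1 / 2) : ℝ) with hE
  have hE0 : 0 ≤ E := by positivity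
  have hy := L8.young k hk δ hδ0 (C1 * (C2 * B)) (by positivity) N F hGtop hftop
  -- combine
  have h3 : N ≤ ENNReal.ofReal (1 + δ) * S + ENNReal.ofReal (C1 * (C2 * B * E * (n : ℝ) ^ (2 * k - 2))) * F +
      (ENNReal.ofReal δ * N + ENNReal.ofReal ((C1 * (C2 * B)) ^ k * (δ⁻¹) ^ (k - 1)) * F) := by
    calc N ≤ ENNReal.ofReal (1 + δ) * S + ENNReal.ofReal C1 *
          (ENNReal.ofReal (C2 * B * E * (n : ℝ) ^ (2 * k - 2)) * F +
            ENNReal.ofReal (C2 * B) * (N ^ (1 - 1 / k : ℝ) * F ^ (1 / k : ℝ))) :=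
          h1.trans (add_le_add le_rfl (mul_le_mul_right h2 _))
      _ = ENNReal.ofReal (1 + δ) * S +
          ENNReal.ofReal (C1 * (C2 * B * E * (n : ℝ) ^ (2 * k - 2))) * F +
            ENNReal.ofReal (C1 * (C2 * B)) * (N ^ (1 - 1 / k : ℝ) * F ^ (1 / k : ℝ)) := by
          rw [ENNReal.ofReal_mul hC1.le, ENNReal.ofReal_mul hC1.le]
          ring
      _ ≤ _ := add_le_add le_rfl hy
  -- absorb
  have h4 : ENNReal.ofReal (1 - δ) * N ≤ ENNReal.ofReal (1 + δ) * S +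
      ENNReal.ofReal (C1 * (C2 * B * E * (n : ℝ) ^ (2 * k - 2))) * F +
      ENNReal.ofReal ((C1 * (C2 * B)) ^ k * (δ⁻¹) ^ (k - 1)) * F := by
    have h5 : N = ENNReal.ofReal (1 - δ) * N + ENNReal.ofReal δ * N := by
      rw [← add_mul, ← ENNReal.ofReal_add (by linarith) hδ0.le, sub_add_cancel, ENNReal.ofReal_one,
        one_mul]
    have h6 : ENNReal.ofReal (1 - δ) * N + ENNReal.ofReal δ * N ≤ (ENNReal.ofReal (1 + δ) * S +
      ENNReal.ofReal (C1 * (C2 * B * E * (n : ℝ) ^ (2 * k - 2))) * F +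
      ENNReal.ofReal ((C1 * (C2 * B)) ^ k * (δ⁻¹) ^ (k - 1)) * F) + ENNReal.ofReal δ * N := by
      rw [← h5]
      refine h3.trans (le_of_eq ?_)
      ring
    exact (ENNReal.add_le_add_iff_right (ENNReal.mul_ne_top ENNReal.ofReal_ne_top hGtop)).mp h6
  have h7 : N = ENNReal.ofReal ((1 - δ)⁻¹) * (ENNReal.ofReal (1 - δ) * N) := by
    rw [← mul_assoc, ← ENNReal.ofReal_mul (by
      have : 0 ≤ 1 - δ := by linarith
      positivity), inv_mul_cancel₀ (by linarith), ENNReal.ofReal_one, one_mul]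
  have hinv2 : (1 - δ)⁻¹ ≤ 2 := by
    rw [inv_le_comm₀ (by linarith) (by norm_num)]
    linarith
  have hinv0 : 0 ≤ (1 - δ)⁻¹ := by
    have : 0 ≤ 1 - δ := by linarith
    positivity
  calc N = ENNReal.ofReal ((1 - δ)⁻¹) * (ENNReal.ofReal (1 - δ) * N) := h7
    _ ≤ ENNReal.ofReal ((1 - δ)⁻¹) * (ENNReal.ofReal (1 + δ) * S +
      ENNReal.ofReal (C1 * (C2 * B * E * (n : ℝ) ^ (2 * k - 2))) * F +
      ENNReal.ofReal ((C1 * (C2 * B)) ^ k * (δ⁻¹) ^ (k - 1)) * F) := mul_le_mul_right h4 _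
    _ = ENNReal.ofReal ((1 - δ)⁻¹ * (1 + δ)) * S +
      ENNReal.ofReal ((1 - δ)⁻¹ * (C1 * (C2 * B * E * (n : ℝ) ^ (2 * k - 2)) +
        (C1 * (C2 * B)) ^ k * (δ⁻¹) ^ (k - 1))) * F := by
        rw [ENNReal.ofReal_mul hinv0, ENNReal.ofReal_mul hinv0,
          ENNReal.ofReal_add (p := C1 * (C2 * B * E * (n : ℝ) ^ (2 * k - 2)))
            (by positivity) (by positivity)]
        ring
    _ ≤ _ := by
        refine add_le_add (mul_le_mul_left (ENNReal.ofReal_le_ofReal hδε) _)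
          (mul_le_mul_left (ENNReal.ofReal_le_ofReal ?_) _)
        have hB1 : (1 : ℝ) ≤ B := by exact_mod_cast hB
        have hBk : (B : ℝ) ≤ (B : ℝ) ^ k := by
          calc (B : ℝ) = (B : ℝ) ^ 1 := (pow_one _).symm
            _ ≤ (B : ℝ) ^ k := pow_le_pow_right₀ hB1 (by omega)
        have hEn : 1 ≤ E * (n : ℝ) ^ (2 * k - 2) := by
          have h8 : (n : ℝ) ^ (-(1 / 2) : ℝ) ≤ E := by
            have : (0 : ℝ) ≤ (2 : ℝ) ^ (-(1 / 2 * J : ℝ)) := by positivity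
            linarith
          have h9 : (n : ℝ) ≤ (n : ℝ) ^ (2 * k - 2) := by
            calc (n : ℝ) = (n : ℝ) ^ 1 := (pow_one _).symm
              _ ≤ (n : ℝ) ^ (2 * k - 2) := pow_le_pow_right₀ hn1 (by omega)
          calc (1 : ℝ) ≤ (n : ℝ) ^ (1 / 2 : ℝ) := Real.one_le_rpow hn1 (by norm_num)
            _ = (n : ℝ) ^ (-(1 / 2) : ℝ) * n := by
                nth_rewrite 3 [← Real.rpow_one (n : ℝ)]
                rw [← Real.rpow_add (by linarith)]
                norm_num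
            _ ≤ E * (n : ℝ) ^ (2 * k - 2) := by
                apply mul_le_mul h8 h9 (by linarith) hE0
        have h10 : C1 * (C2 * B * E * (n : ℝ) ^ (2 * k - 2)) ≤
            C1 * C2 * (B : ℝ) ^ k * E * (n : ℝ) ^ (2 * k - 2) := by
          have h11 : (0 : ℝ) ≤ C1 * C2 * (E * (n : ℝ) ^ (2 * k - 2)) := by positivity
          nlinarith
        have h12 : (C1 * (C2 * B)) ^ k * (δ⁻¹) ^ (k - 1) ≤
            (C1 * C2) ^ k * (δ⁻¹) ^ (k - 1) * (B : ℝ) ^ k * E * (n : ℝ) ^ (2 * k - 2) := by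
          have h13 : (C1 * (C2 * B)) ^ k = (C1 * C2) ^ k * (B : ℝ) ^ k := by
            rw [← mul_pow]
            ring
          rw [h13]
          have h14 : (0 : ℝ) ≤ (C1 * C2) ^ k * (B : ℝ) ^ k * (δ⁻¹) ^ (k - 1) := by positivity
          nlinarith
        have h15 : 0 ≤ C1 * (C2 * B * E * (n : ℝ) ^ (2 * k - 2)) +
          (C1 * (C2 * B)) ^ k * (δ⁻¹) ^ (k - 1) := by positivity
        calc (1 - δ)⁻¹ * (C1 * (C2 * B * E * (n : ℝ) ^ (2 * k - 2)) +
              (C1 * (C2 * B)) ^ k * (δ⁻¹) ^ (k - 1)) ≤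
            2 * (C1 * (C2 * B * E * (n : ℝ) ^ (2 * k - 2)) +
              (C1 * (C2 * B)) ^ k * (δ⁻¹) ^ (k - 1)) := mul_le_mul_of_nonneg_right hinv2 h15
          _ ≤ 2 * (C1 * C2 * (B : ℝ) ^ k * E * (n : ℝ) ^ (2 * k - 2) +
              (C1 * C2) ^ k * (δ⁻¹) ^ (k - 1) * (B : ℝ) ^ k * E * (n : ℝ) ^ (2 * k - 2)) := by
              linarith
          _ = _ := by
              rw [hE]
              ring

end Helper72.BA.P
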