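import Pool.Agent.Helper88.Signal

/-!
Iterated one-way passes over a word, simulated by the signal rewriting system.
-/

namespace Pool.Agent.Helper88

open Relation Letter

namespace Pass

variable {X Q : Type} (δ : Q → X → X × Option Q) (ω : Q → List X) (q0 : Q)

/-- Result of sending a signal through a word; `none` when the halting signal appears. -/
def pass : Option Q → List X → Option (List X)
  | none, _ => none
  | some q, [] => some (ω q)
  | some q, x :: xs => (pass (δ q x).2 xs).map (fun l => (δ q x).1 :: l)

/-- Iterated passes with the signal `q0`. -/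
def iter : ℕ → List X → Option (List X)
  | 0, c => some c
  | k + 1, c => (iter k c).bind (pass δ ω (some q0))

/-- Crossing function of the signal system; `none` as a cell is the start marker and resets every
signal to `q0`; `none` as a signal is the halting signal. -/
def crossF : Option Q → Option X → Option X × Option Q
  | _, none => (none, some q0)
  | some q, some x => (some (δ q x).1, (δ q x).2)
  | none, some x => (some x, none)

/-- Output function of the signal system. -/
def outF : Option Q → Option (List (Option X))
  | none => none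
  | some q => some ((ω q).map some)

/-- Letters of the system. -/
abbrev L (X Q : Type) := Letter (Option X) (Option Q)

/-- The semantic value of a segment between the start marker and the stop marker. -/
def val : List (L X Q) → Option (List X)
  | [] => some []
  | cell (some x) :: B => (val B).map (fun l => x :: l)
  | fuel :: B => val B
  | sig q :: B => (val B).bind (pass δ ω q)
  | _ :: _ => none


theorem pass_none (c : List X) : pass δ ω none c = none := by
  cases c <;> rfl

theorem outF_of_pass {q : Option Q} (h : pass δ ω q [] ≠ none) :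
    ∃ l, outF (X := X) ω q = some l := by
  cases q with
  | none => exact absurd rfl h
  | some q => exact ⟨_, rfl⟩

theorem val_map (c : List X) : val δ ω (c.map (fun x => cell (some x)) : List (L X Q)) = some c := by
  induction c with
  | nil => rfl
  | cons x c ih => simp [val, ih]

/-- Inserting a signal in front of a segment. -/
theorem insS_seg {B : List (L X Q)} {c : List X} (hB : val δ ω B = some c) {q : Option Q}
    (hq : pass δ ω q c ≠ none) (Z : List (L X Q)) :
    Sys.insS (outF (X := X) ω) q (B ++ stop :: Z) = sig q :: (B ++ stop :: Z) := by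
  cases B with
  | nil =>
    simp only [val, Option.some.injEq] at hB
    subst hB
    obtain ⟨l, hl⟩ := outF_of_pass δ ω hq
    cases Z with
    | nil => simp [Sys.insS]
    | cons t Z => simp [Sys.insS, hl]
  | cons t B =>
    cases t with
    | zero => simp [val] at hB
    | stop => simp [val] at hB
    | fuel => simp [Sys.insS]
    | cell x => simp [Sys.insS]
    | sig q => simp [Sys.insS]

/-- Inserting a fuel letter in front of a segment. -/
theorem insF_seg (n : ℕ) : ∀ (B : List (L X Q)) (c : List X), B.length ≤ n → val δ ω B = some c →
    ∃ B' : List (L X Q), val δ ω B' = some c ∧ ∀ Z : List (L X Q),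
      Sys.insF (crossF δ q0) (outF (X := X) ω) (B ++ stop :: Z) = B' ++ stop :: Z := by
  induction n with
  | zero =>
    intro B c hn hB
    have : B = [] := List.length_eq_zero_iff.mp (Nat.le_zero.mp hn)
    subst this
    exact ⟨[fuel], by simpa [val] using hB, fun Z => by simp [Sys.insF]⟩
  | succ n ih =>
    intro B c hn hB
    have dflt : (∀ Z : List (L X Q), Sys.insF (crossF δ q0) (outF (X := X) ω) (B ++ stop :: Z)
        = fuel :: (B ++ stop :: Z)) → ∃ B' : List (L X Q), val δ ω B' = some c ∧
        ∀ Z : List (L X Q),
        Sys.insF (crossF δ q0) (outF (X := X) ω) (B ++ stop :: Z) = B' ++ stop :: Z := by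
      intro h
      exact ⟨fuel :: B, by simpa [val] using hB, fun Z => by rw [h]; rfl⟩
    match B, hn, hB, dflt with
    | [], _, _, dflt => exact dflt (fun Z => by simp [Sys.insF])
    | zero :: _, _, hB, _ => simp [val] at hB
    | stop :: _, _, hB, _ => simp [val] at hB
    | cell x :: B, _, hB, dflt => exact dflt (fun Z => by simp [Sys.insF])
    | sig q :: B1, hn, hB, dflt =>
      match B1, hn, hB, dflt with
      | [], _, _, dflt => exact dflt (fun Z => by simp [Sys.insF])
      | zero :: _, _, hB, _ => simp [val] at hB
      | stop :: _, _, hB, _ => simp [val] at hB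
      | fuel :: B, _, hB, dflt => exact dflt (fun Z => by simp [Sys.insF])
      | sig q :: B, _, hB, dflt => exact dflt (fun Z => by simp [Sys.insF])
      | cell none :: B, _, hB, dflt => simp [val] at hB
      | cell (some x) :: B, hn, hB, dflt =>
        cases hv : val δ ω B with
        | none => simp [val, hv] at hB
        | some c' =>
          cases q with
          | none => simp [val, hv, pass_none] at hB
          | some q =>
            simp only [val, hv, Option.map_some, Option.bind_some, pass] at hB
            have hne : pass δ ω (δ q x).2 c' ≠ none := by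
              intro h
              rw [h] at hB
              simp at hB
            refine ⟨cell (some (δ q x).1) :: sig (δ q x).2 :: B, ?_, fun Z => ?_⟩
            · simp only [val, hv, Option.bind_some]
              exact hB
            · have := insS_seg δ ω hv hne Z
              simp only [List.cons_append, Sys.insF, crossF, this]
              rfl
    | fuel :: B1, hn, hB, dflt =>
      match B1, hn, hB, dflt with
      | [], _, _, dflt => exact dflt (fun Z => by simp [Sys.insF])
      | zero :: _, _, hB, _ => simp [val] at hB
      | stop :: _, _, hB, _ => simp [val] at hB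
      | fuel :: B, _, hB, dflt => exact dflt (fun Z => by simp [Sys.insF])
      | cell none :: B, _, hB, dflt => simp [val] at hB
      | cell (some x) :: B, hn, hB, dflt =>
        simp only [val] at hB
        cases hv : val δ ω B with
        | none => simp [hv] at hB
        | some c' =>
          obtain ⟨B', hB', hZ⟩ := ih B c' (by simp at hn; omega) hv
          refine ⟨cell (some x) :: B', ?_, fun Z => ?_⟩
          · simp only [val, hB', hv] at hB ⊢
            exact hB
          · simp only [List.cons_append, Sys.insF, hZ]
            rw [Sys.scons_of_ne]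
            cases B' with
            | nil => simp
            | cons t B' =>
              cases t with
              | zero => simp [val] at hB'
              | _ => simp
      | sig q :: B2, hn, hB, dflt =>
        match B2, hn, hB, dflt with
        | [], hn, hB, dflt =>
          simp only [val, Option.bind_some] at hB
          cases q with
          | none => simp [pass] at hB
          | some q =>
            simp only [pass, Option.some.injEq] at hB
            subst hB
            refine ⟨(ω q).map (fun x => cell (some x)), val_map δ ω _, fun Z => ?_⟩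
            simp [Sys.insF, outF]
        | zero :: _, _, hB, _ => simp [val] at hB
        | stop :: _, _, hB, _ => simp [val] at hB
        | cell x :: B, _, hB, dflt => exact dflt (fun Z => by simp [Sys.insF])
        | fuel :: B, _, hB, dflt => exact dflt (fun Z => by simp [Sys.insF])
        | sig q :: B, _, hB, dflt => exact dflt (fun Z => by simp [Sys.insF])

/-- A family of normal forms `F Z` with a start marker, a good segment and the stop marker in front
of the tail `Z`, or constantly zero. -/
def Good (c0 : List X) (F : List (L X Q) → List (L X Q)) : Prop :=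
  (∃ (A B : List (L X Q)) (k : ℕ) (c : List X), val δ ω B = some c ∧ iter δ ω q0 k c0 = some c ∧
    ∀ Z, F Z = A ++ cell none :: (B ++ stop :: Z)) ∨ (∀ Z, F Z = [zero])

theorem Good.congr {c0 : List X} {F G : List (L X Q) → List (L X Q)} (hF : Good δ ω q0 c0 F)
    (h : ∀ Z, G Z = F Z) : Good δ ω q0 c0 G := by
  have : G = F := funext h
  rwa [this]

theorem good_of {c0 : List X} {F : List (L X Q) → List (L X Q)} (A B : List (L X Q)) (k : ℕ)
    (c : List X) (hB : val δ ω B = some c) (hc : iter δ ω q0 k c0 = some c)
    (h : ∀ Z, F Z = A ++ cell none :: (B ++ stop :: Z)) : Good δ ω q0 c0 F :=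
  Or.inl ⟨A, B, k, c, hB, hc, h⟩

theorem good_scons {c0 : List X} {F : List (L X Q) → List (L X Q)} (hF : Good δ ω q0 c0 F)
    (t : L X Q) : Good δ ω q0 c0 (fun Z => Sys.scons t (F Z)) := by
  rcases hF with ⟨A, B, k, c, hB, hc, h⟩ | h
  · rcases A with _ | ⟨a, A⟩
    · exact good_of δ ω q0 [t] B k c hB hc (fun Z => by simp [h, Sys.scons])
    · cases a with
      | zero => exact Or.inr (fun Z => by simp [h, Sys.scons])
      | fuel => exact good_of δ ω q0 (t :: fuel :: A) B k c hB hc (fun Z => by simp [h, Sys.scons])
      | stop => exact good_of δ ω q0 (t :: stop :: A) B k c hB hc (fun Z => by simp [h, Sys.scons])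
      | cell x =>
        exact good_of δ ω q0 (t :: cell x :: A) B k c hB hc (fun Z => by simp [h, Sys.scons])
      | sig q =>
        exact good_of δ ω q0 (t :: sig q :: A) B k c hB hc (fun Z => by simp [h, Sys.scons])
  · exact Or.inr (fun Z => by simp [h, Sys.scons])

theorem good_insS {c0 : List X} {F : List (L X Q) → List (L X Q)} (hF : Good δ ω q0 c0 F)
    (q : Option Q) : Good δ ω q0 c0 (fun Z => Sys.insS (outF (X := X) ω) q (F Z)) := by
  rcases hF with ⟨A, B, k, c, hB, hc, h⟩ | h
  · match A, h with
    | [], h => exact good_of δ ω q0 [sig q] B k c hB hc (fun Z => by simp [h, Sys.insS])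
    | zero :: A, h => exact Or.inr (fun Z => by simp [h, Sys.insS])
    | fuel :: A, h =>
      exact good_of δ ω q0 (sig q :: fuel :: A) B k c hB hc (fun Z => by simp [h, Sys.insS])
    | cell x :: A, h =>
      exact good_of δ ω q0 (sig q :: cell x :: A) B k c hB hc (fun Z => by simp [h, Sys.insS])
    | sig q' :: A, h =>
      exact good_of δ ω q0 (sig q :: sig q' :: A) B k c hB hc (fun Z => by simp [h, Sys.insS])
    | [stop], h =>
      cases hq : outF (X := X) ω q with
      | none => exact Or.inr (fun Z => by simp [h, Sys.insS, hq])
      | some l =>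
        exact good_of δ ω q0 [sig q, stop] B k c hB hc (fun Z => by simp [h, Sys.insS, hq])
    | stop :: t :: A, h =>
      cases hq : outF (X := X) ω q with
      | none => exact Or.inr (fun Z => by simp [h, Sys.insS, hq])
      | some l =>
        exact good_of δ ω q0 (sig q :: stop :: t :: A) B k c hB hc
          (fun Z => by simp [h, Sys.insS, hq])
  · exact Or.inr (fun Z => by simp [h, Sys.insS])

theorem good_insF_aux {c0 : List X} (hN : ∀ k, iter δ ω q0 k c0 ≠ none) (n : ℕ) :
    ∀ (A B : List (L X Q)) (k : ℕ) (c : List X), A.length ≤ n → val δ ω B = some c →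
      iter δ ω q0 k c0 = some c →
      Good δ ω q0 c0 (fun Z => Sys.insF (crossF δ q0) (outF (X := X) ω)
        (A ++ cell none :: (B ++ stop :: Z))) := by
  induction n with
  | zero =>
    intro A B k c hn hB hc
    have : A = [] := List.length_eq_zero_iff.mp (Nat.le_zero.mp hn)
    subst this
    exact good_of δ ω q0 [fuel] B k c hB hc (fun Z => by simp [Sys.insF])
  | succ n ih =>
    intro A B k c hn hB hc
    have dflt : (∀ Z : List (L X Q), Sys.insF (crossF δ q0) (outF (X := X) ω)
        (A ++ cell none :: (B ++ stop :: Z)) = fuel :: (A ++ cell none :: (B ++ stop :: Z))) →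
        Good δ ω q0 c0 (fun Z => Sys.insF (crossF δ q0) (outF (X := X) ω)
        (A ++ cell none :: (B ++ stop :: Z))) := by
      intro h
      exact good_of δ ω q0 (fuel :: A) B k c hB hc (fun Z => by rw [h]; rfl)
    match A, hn, dflt with
    | [], _, dflt => exact dflt (fun Z => by simp [Sys.insF])
    | zero :: A, _, _ => exact Or.inr (fun Z => by simp [Sys.insF])
    | stop :: A, _, dflt => exact dflt (fun Z => by simp [Sys.insF])
    | cell x :: A, _, dflt => exact dflt (fun Z => by simp [Sys.insF])
    | [fuel], _, dflt =>
      obtain ⟨B', hB', hZ⟩ := insF_seg δ ω q0 B.length B c le_rfl hB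
      refine good_of δ ω q0 [] B' k c hB' hc (fun Z => ?_)
      simp only [List.cons_append, List.nil_append, Sys.insF, hZ]
      rw [Sys.scons_of_ne]
      cases B' with
      | nil => simp
      | cons t B' =>
        cases t with
        | zero => simp [val] at hB'
        | _ => simp
    | fuel :: zero :: A, _, dflt => exact dflt (fun Z => by simp [Sys.insF])
    | fuel :: stop :: A, _, dflt => exact dflt (fun Z => by simp [Sys.insF])
    | fuel :: fuel :: A, _, dflt => exact dflt (fun Z => by simp [Sys.insF])
    | fuel :: cell x :: A, hn, dflt =>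
      have h1 := ih A B k c (by simp at hn; omega) hB hc
      exact (good_scons δ ω q0 h1 (cell x)).congr δ ω q0 (fun Z => by simp [Sys.insF])
    | [fuel, sig q], _, dflt => exact dflt (fun Z => by simp [Sys.insF])
    | fuel :: sig q :: zero :: A, _, dflt => exact dflt (fun Z => by simp [Sys.insF])
    | fuel :: sig q :: fuel :: A, _, dflt => exact dflt (fun Z => by simp [Sys.insF])
    | fuel :: sig q :: cell x :: A, _, dflt => exact dflt (fun Z => by simp [Sys.insF])
    | fuel :: sig q :: sig q' :: A, _, dflt => exact dflt (fun Z => by simp [Sys.insF])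
    | fuel :: sig q :: stop :: A, _, dflt =>
      cases hq : outF (X := X) ω q with
      | none => exact dflt (fun Z => by simp [Sys.insF, hq])
      | some l =>
        exact good_of δ ω q0 (l.map cell ++ stop :: A) B k c hB hc
          (fun Z => by simp [Sys.insF, hq])
    | [sig q], _, dflt =>
      have h1 : iter δ ω q0 (k + 1) c0 ≠ none := hN (k + 1)
      simp only [iter, hc, Option.bind_some] at h1
      cases h2 : pass δ ω (some q0) c with
      | none => exact absurd h2 h1
      | some c' =>
        refine good_of δ ω q0 [] (sig (some q0) :: B) (k + 1) c' ?_ ?_ (fun Z => ?_)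
        · simp [val, hB, h2]
        · simp [iter, hc, h2]
        · have := insS_seg δ ω hB (q := some q0) (by rw [h2]; simp) Z
          simp only [List.cons_append, List.nil_append, Sys.insF, crossF, this]
          rw [Sys.scons_of_ne]
          simp
    | sig q :: zero :: A, _, dflt => exact dflt (fun Z => by simp [Sys.insF])
    | sig q :: stop :: A, _, dflt => exact dflt (fun Z => by simp [Sys.insF])
    | sig q :: fuel :: A, _, dflt => exact dflt (fun Z => by simp [Sys.insF])
    | sig q :: sig q' :: A, _, dflt => exact dflt (fun Z => by simp [Sys.insF])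
    | sig q :: cell x :: A, hn, dflt =>
      have h1 : Good δ ω q0 c0 (fun Z => A ++ cell none :: (B ++ stop :: Z)) :=
        good_of δ ω q0 A B k c hB hc (fun Z => rfl)
      have h2 := good_insS δ ω q0 h1 (crossF δ q0 q x).2
      exact (good_scons δ ω q0 h2 (cell (crossF δ q0 q x).1)).congr δ ω q0
        (fun Z => by simp [Sys.insF])

theorem good_ins {c0 : List X} (hN : ∀ k, iter δ ω q0 k c0 ≠ none)
    {F : List (L X Q) → List (L X Q)} (hF : Good δ ω q0 c0 F) (t : L X Q) :
    Good δ ω q0 c0 (fun Z => Sys.ins (crossF δ q0) (outF (X := X) ω) t (F Z)) := by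
  cases t with
  | zero => exact Or.inr (fun Z => by simp [Sys.ins])
  | stop => exact good_scons δ ω q0 hF stop
  | cell x => exact good_scons δ ω q0 hF (cell x)
  | sig q => exact good_insS δ ω q0 hF q
  | fuel =>
    rcases hF with ⟨A, B, k, c, hB, hc, h⟩ | h
    · exact (good_insF_aux δ ω q0 hN A.length A B k c le_rfl hB hc).congr δ ω q0
        (fun Z => by simp [Sys.ins, h])
    · exact Or.inr (fun Z => by simp [Sys.ins, h, Sys.insF])

theorem good_foldr {c0 : List X} (hN : ∀ k, iter δ ω q0 k c0 ≠ none)
    {F : List (L X Q) → List (L X Q)} (hF : Good δ ω q0 c0 F) (m : List (L X Q)) :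
    Good δ ω q0 c0 (fun Z => m.foldr (Sys.ins (crossF δ q0) (outF (X := X) ω)) (F Z)) := by
  induction m with
  | nil => exact hF
  | cons t m ih => exact good_ins δ ω q0 hN ih t

/-- The word `start c`. -/
def uw (c : List X) : List (L X Q) := cell none :: c.map (fun x => cell (some x))

/-- The word `a = u v = start c stop`. -/
def aw (c : List X) : List (L X Q) := uw c ++ [stop]

/-- The word `b = v u = stop start c`. -/
def bw (c : List X) : List (L X Q) := stop :: uw c

theorem foldr_uw (c : List X) (W : List (L X Q)) (h : W.head? ≠ some zero) :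
    (uw c).foldr (Sys.ins (crossF δ q0) (outF (X := X) ω)) W = uw c ++ W := by
  have h2 : (uw c : List (L X Q)) = (none :: c.map some).map cell := by
    simp [uw]
  rw [h2]
  exact Sys.foldr_cells _ _ _ _ h

theorem nf_uw (c : List X) : Sys.nf (crossF δ q0) (outF (X := X) ω) (uw c) = uw c := by
  have := foldr_uw δ ω q0 c [] (by simp)
  simpa [Sys.nf] using this

theorem nf_aw_append (c : List X) (Z : List (L X Q)) (hZ : Z.head? ≠ some zero) :
    (aw c).foldr (Sys.ins (crossF δ q0) (outF (X := X) ω)) Z = uw c ++ stop :: Z := by
  rw [aw, List.foldr_append]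
  have : [stop].foldr (Sys.ins (crossF δ q0) (outF (X := X) ω)) Z = stop :: Z := by
    simp [Sys.ins, Sys.scons_of_ne hZ]
  rw [this, foldr_uw]
  simp

/-- First membership: if the iteration never halts, then `m a u = 0` implies `m a = 0`. -/
theorem mem_first {c0 : List X} (hN : ∀ k, iter δ ω q0 k c0 ≠ none) (m : List (L X Q))
    (h : Sys.nf (crossF δ q0) (outF (X := X) ω) (m ++ aw c0 ++ uw c0) = [zero]) :
    Sys.nf (crossF δ q0) (outF (X := X) ω) (m ++ aw c0) = [zero] := by
  have hG : Good δ ω q0 c0 (fun Z => uw c0 ++ stop :: Z) :=
    good_of δ ω q0 [] (c0.map (fun x => cell (some x))) 0 c0 (val_map δ ω c0) rfl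
      (fun Z => by simp [uw])
  have hG' := good_foldr δ ω q0 hN hG m
  rw [List.append_assoc, Sys.nf_append, Sys.nf_append, nf_uw, nf_aw_append] at h
  · rw [Sys.nf_append]
    have h0 : Sys.nf (crossF δ q0) (outF (X := X) ω) (aw c0) = uw c0 ++ stop :: [] := by
      have := nf_aw_append δ ω q0 c0 [] (by simp)
      exact this
    rw [h0]
    rcases hG' with ⟨A, B, k, c, hB, hc, h1⟩ | h1
    · have h2 := h1 (uw c0)
      simp only at h2
      rw [h] at h2
      have := congrArg List.length h2
      have h3 := congrArg (fun l => (cell none : L X Q) ∈ l) h2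
      simp at h3
    · exact h1 []
  · simp [uw]

/-- A family of normal forms with a stop marker followed by a start marker in front of the
tail `Z`, or constantly zero. -/
def GoodB (F : List (L X Q) → List (L X Q)) : Prop :=
  (∃ A : List (L X Q), ∀ Z, F Z = A ++ stop :: cell none :: Z) ∨ (∀ Z, F Z = [zero])

theorem GoodB.congr {F G : List (L X Q) → List (L X Q)} (hF : GoodB F)
    (h : ∀ Z, G Z = F Z) : GoodB G := by
  have : G = F := funext h
  rwa [this]

theorem goodB_of {F : List (L X Q) → List (L X Q)} (A : List (L X Q))
    (h : ∀ Z, F Z = A ++ stop :: cell none :: Z) : GoodB F := Or.inl ⟨A, h⟩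

theorem goodB_scons {F : List (L X Q) → List (L X Q)} (hF : GoodB F) (t : L X Q) :
    GoodB (fun Z => Sys.scons t (F Z)) := by
  rcases hF with ⟨A, h⟩ | h
  · rcases A with _ | ⟨a, A⟩
    · exact goodB_of [t] (fun Z => by simp [h, Sys.scons])
    · cases a with
      | zero => exact Or.inr (fun Z => by simp [h, Sys.scons])
      | fuel => exact goodB_of (t :: fuel :: A) (fun Z => by simp [h, Sys.scons])
      | stop => exact goodB_of (t :: stop :: A) (fun Z => by simp [h, Sys.scons])
      | cell x => exact goodB_of (t :: cell x :: A) (fun Z => by simp [h, Sys.scons])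
      | sig q => exact goodB_of (t :: sig q :: A) (fun Z => by simp [h, Sys.scons])
  · exact Or.inr (fun Z => by simp [h, Sys.scons])

theorem goodB_insS {F : List (L X Q) → List (L X Q)} (hF : GoodB F) (q : Option Q) :
    GoodB (fun Z => Sys.insS (outF (X := X) ω) q (F Z)) := by
  rcases hF with ⟨A, h⟩ | h
  · match A, h with
    | [], h =>
      cases hq : outF (X := X) ω q with
      | none => exact Or.inr (fun Z => by simp [h, Sys.insS, hq])
      | some l => exact goodB_of [sig q] (fun Z => by simp [h, Sys.insS, hq])
    | zero :: A, h => exact Or.inr (fun Z => by simp [h, Sys.insS])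
    | fuel :: A, h => exact goodB_of (sig q :: fuel :: A) (fun Z => by simp [h, Sys.insS])
    | cell x :: A, h => exact goodB_of (sig q :: cell x :: A) (fun Z => by simp [h, Sys.insS])
    | sig q' :: A, h => exact goodB_of (sig q :: sig q' :: A) (fun Z => by simp [h, Sys.insS])
    | [stop], h =>
      cases hq : outF (X := X) ω q with
      | none => exact Or.inr (fun Z => by simp [h, Sys.insS, hq])
      | some l => exact goodB_of [sig q, stop] (fun Z => by simp [h, Sys.insS, hq])
    | stop :: t :: A, h =>
      cases hq : outF (X := X) ω q with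
      | none => exact Or.inr (fun Z => by simp [h, Sys.insS, hq])
      | some l => exact goodB_of (sig q :: stop :: t :: A) (fun Z => by simp [h, Sys.insS, hq])
  · exact Or.inr (fun Z => by simp [h, Sys.insS])

theorem goodB_insF_aux (n : ℕ) :
    ∀ (A : List (L X Q)), A.length ≤ n →
      GoodB (fun Z => Sys.insF (crossF δ q0) (outF (X := X) ω) (A ++ stop :: cell none :: Z)) := by
  induction n with
  | zero =>
    intro A hn
    have : A = [] := List.length_eq_zero_iff.mp (Nat.le_zero.mp hn)
    subst this
    exact goodB_of [fuel] (fun Z => by simp [Sys.insF])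
  | succ n ih =>
    intro A hn
    have dflt : (∀ Z : List (L X Q), Sys.insF (crossF δ q0) (outF (X := X) ω)
        (A ++ stop :: cell none :: Z) = fuel :: (A ++ stop :: cell none :: Z)) →
        GoodB (fun Z => Sys.insF (crossF δ q0) (outF (X := X) ω)
        (A ++ stop :: cell none :: Z)) := by
      intro h
      exact goodB_of (fuel :: A) (fun Z => by rw [h]; rfl)
    match A, hn, dflt with
    | [], _, dflt => exact dflt (fun Z => by simp [Sys.insF])
    | zero :: A, _, _ => exact Or.inr (fun Z => by simp [Sys.insF])
    | stop :: A, _, dflt => exact dflt (fun Z => by simp [Sys.insF])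
    | cell x :: A, _, dflt => exact dflt (fun Z => by simp [Sys.insF])
    | [fuel], _, dflt => exact dflt (fun Z => by simp [Sys.insF])
    | fuel :: zero :: A, _, dflt => exact dflt (fun Z => by simp [Sys.insF])
    | fuel :: stop :: A, _, dflt => exact dflt (fun Z => by simp [Sys.insF])
    | fuel :: fuel :: A, _, dflt => exact dflt (fun Z => by simp [Sys.insF])
    | fuel :: cell x :: A, hn, dflt =>
      have h1 := ih A (by simp at hn; omega)
      exact (goodB_scons h1 (cell x)).congr (fun Z => by simp [Sys.insF])
    | [fuel, sig q], _, dflt =>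
      cases hq : outF (X := X) ω q with
      | none => exact dflt (fun Z => by simp [Sys.insF, hq])
      | some l => exact goodB_of (l.map cell) (fun Z => by simp [Sys.insF, hq])
    | fuel :: sig q :: zero :: A, _, dflt => exact dflt (fun Z => by simp [Sys.insF])
    | fuel :: sig q :: fuel :: A, _, dflt => exact dflt (fun Z => by simp [Sys.insF])
    | fuel :: sig q :: cell x :: A, _, dflt => exact dflt (fun Z => by simp [Sys.insF])
    | fuel :: sig q :: sig q' :: A, _, dflt => exact dflt (fun Z => by simp [Sys.insF])
    | fuel :: sig q :: stop :: A, _, dflt =>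
      cases hq : outF (X := X) ω q with
      | none => exact dflt (fun Z => by simp [Sys.insF, hq])
      | some l => exact goodB_of (l.map cell ++ stop :: A) (fun Z => by simp [Sys.insF, hq])
    | [sig q], _, dflt => exact dflt (fun Z => by simp [Sys.insF])
    | sig q :: zero :: A, _, dflt => exact dflt (fun Z => by simp [Sys.insF])
    | sig q :: stop :: A, _, dflt => exact dflt (fun Z => by simp [Sys.insF])
    | sig q :: fuel :: A, _, dflt => exact dflt (fun Z => by simp [Sys.insF])
    | sig q :: sig q' :: A, _, dflt => exact dflt (fun Z => by simp [Sys.insF])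
    | sig q :: cell x :: A, hn, dflt =>
      have h1 : GoodB (fun Z : List (L X Q) => A ++ stop :: cell none :: Z) :=
        goodB_of A (fun Z => rfl)
      have h2 := goodB_insS ω h1 (crossF δ q0 q x).2
      exact (goodB_scons h2 (cell (crossF δ q0 q x).1)).congr (fun Z => by simp [Sys.insF])

theorem goodB_ins {F : List (L X Q) → List (L X Q)} (hF : GoodB F) (t : L X Q) :
    GoodB (fun Z => Sys.ins (crossF δ q0) (outF (X := X) ω) t (F Z)) := by
  cases t with
  | zero => exact Or.inr (fun Z => by simp [Sys.ins])
  | stop => exact goodB_scons hF stop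
  | cell x => exact goodB_scons hF (cell x)
  | sig q => exact goodB_insS ω hF q
  | fuel =>
    rcases hF with ⟨A, h⟩ | h
    · exact (goodB_insF_aux δ ω q0 A.length A le_rfl).congr (fun Z => by simp [Sys.ins, h])
    · exact Or.inr (fun Z => by simp [Sys.ins, h, Sys.insF])

theorem goodB_foldr {F : List (L X Q) → List (L X Q)} (hF : GoodB F) (m : List (L X Q)) :
    GoodB (fun Z => m.foldr (Sys.ins (crossF δ q0) (outF (X := X) ω)) (F Z)) := by
  induction m with
  | nil => exact hF
  | cons t m ih => exact goodB_ins δ ω q0 ih t

theorem nf_bw (c : List X) :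
    Sys.nf (crossF δ q0) (outF (X := X) ω) (bw c) = bw c := by
  have : Sys.nf (crossF δ q0) (outF (X := X) ω) (bw c) =
      Sys.ins (crossF δ q0) (outF (X := X) ω) stop
        (Sys.nf (crossF δ q0) (outF (X := X) ω) (uw c)) := rfl
  rw [this, nf_uw]
  simp [Sys.ins, Sys.scons, uw, bw]

theorem nf_aw (c : List X) :
    Sys.nf (crossF δ q0) (outF (X := X) ω) (aw c) = aw c := by
  have := nf_aw_append δ ω q0 c [] (by simp)
  exact this

theorem nf_bw_stop (c : List X) :
    Sys.nf (crossF δ q0) (outF (X := X) ω) (bw c ++ [stop]) = bw c ++ [stop] := by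
  have : Sys.nf (crossF δ q0) (outF (X := X) ω) (bw c ++ [stop]) =
      Sys.ins (crossF δ q0) (outF (X := X) ω) stop
        (Sys.nf (crossF δ q0) (outF (X := X) ω) (aw c)) := rfl
  rw [this, nf_aw]
  simp [Sys.ins, Sys.scons, uw, bw, aw]

/-- Second membership: `m b v = 0` implies `m b = 0`. -/
theorem mem_second (c0 : List X) (m : List (L X Q))
    (h : Sys.nf (crossF δ q0) (outF (X := X) ω) (m ++ bw c0 ++ [stop]) = [zero]) :
    Sys.nf (crossF δ q0) (outF (X := X) ω) (m ++ bw c0) = [zero] := by
  have hG : GoodB (fun Z : List (L X Q) => stop :: cell none :: Z) :=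
    goodB_of [] (fun Z => rfl)
  have hG' := goodB_foldr δ ω q0 hG m
  rw [List.append_assoc, Sys.nf_append, nf_bw_stop] at h
  rw [Sys.nf_append, nf_bw]
  rcases hG' with ⟨A, h1⟩ | h1
  · have h2 := h1 (c0.map (fun x => cell (some x)) ++ [stop])
    have h3 : (stop :: cell none :: (c0.map (fun x => cell (some x)) ++ [stop]) : List (L X Q)) =
        bw c0 ++ [stop] := by simp [bw, uw]
    simp only [h3, h] at h2
    have h4 := congrArg (fun l => (cell none : L X Q) ∈ l) h2
    simp [bw, uw] at h4
  · exact h1 _

/-- Words without zero and stop letters. -/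
def NS (B : List (L X Q)) : Prop := ∀ s ∈ B, s ≠ zero ∧ s ≠ stop

theorem NS.tail {s : L X Q} {B : List (L X Q)} (h : NS (s :: B)) : NS B :=
  fun t ht => h t (List.mem_cons_of_mem _ ht)

theorem NS.cons {s : L X Q} {B : List (L X Q)} (h : NS B) (h1 : s ≠ zero) (h2 : s ≠ stop) :
    NS (s :: B) := by
  intro t ht
  rcases List.mem_cons.mp ht with rfl | ht
  · exact ⟨h1, h2⟩
  · exact h t ht

theorem ns_scons {B : List (L X Q)} (h : NS B) (s : L X Q) :
    Sys.scons s (B ++ [stop]) = s :: (B ++ [stop]) := by
  rw [Sys.scons_of_ne]
  cases B with
  | nil => simp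
  | cons t B =>
    have := (h t (by simp)).1
    simpa using this

theorem ns_insS {B : List (L X Q)} (h : NS B) (q : Option Q) :
    Sys.insS (outF (X := X) ω) q (B ++ [stop]) = sig q :: (B ++ [stop]) := by
  cases B with
  | nil => simp [Sys.insS]
  | cons t B =>
    cases t with
    | zero => exact absurd rfl (h zero (by simp)).1
    | stop => exact absurd rfl (h stop (by simp)).2
    | fuel => simp [Sys.insS]
    | cell x => simp [Sys.insS]
    | sig q => simp [Sys.insS]

theorem ns_insF (n : ℕ) : ∀ (B : List (L X Q)), B.length ≤ n → NS B →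
    ∃ B' : List (L X Q), NS B' ∧
      Sys.insF (crossF δ q0) (outF (X := X) ω) (B ++ [stop]) = B' ++ [stop] := by
  induction n with
  | zero =>
    intro B hn hB
    have : B = [] := List.length_eq_zero_iff.mp (Nat.le_zero.mp hn)
    subst this
    exact ⟨[fuel], hB.cons (by simp) (by simp), by simp [Sys.insF]⟩
  | succ n ih =>
    intro B hn hB
    have dflt : (Sys.insF (crossF δ q0) (outF (X := X) ω) (B ++ [stop])
        = fuel :: (B ++ [stop])) → ∃ B' : List (L X Q), NS B' ∧
        Sys.insF (crossF δ q0) (outF (X := X) ω) (B ++ [stop]) = B' ++ [stop] := by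
      intro h
      exact ⟨fuel :: B, hB.cons (by simp) (by simp), by rw [h]; rfl⟩
    match B, hn, hB, dflt with
    | [], _, _, dflt => exact dflt (by simp [Sys.insF])
    | zero :: _, _, hB, _ => exact absurd rfl (hB zero (by simp)).1
    | stop :: _, _, hB, _ => exact absurd rfl (hB stop (by simp)).2
    | cell x :: B, _, hB, dflt => exact dflt (by simp [Sys.insF])
    | sig q :: B1, hn, hB, dflt =>
      match B1, hn, hB, dflt with
      | [], _, _, dflt => exact dflt (by simp [Sys.insF])
      | zero :: _, _, hB, _ => exact absurd rfl (hB zero (by simp)).1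
      | stop :: _, _, hB, _ => exact absurd rfl (hB stop (by simp)).2
      | fuel :: B, _, hB, dflt => exact dflt (by simp [Sys.insF])
      | sig q :: B, _, hB, dflt => exact dflt (by simp [Sys.insF])
      | cell x :: B, hn, hB, dflt =>
        refine ⟨cell (crossF δ q0 q x).1 :: sig (crossF δ q0 q x).2 :: B, ?_, ?_⟩
        · exact (hB.tail.tail.cons (by simp) (by simp)).cons (by simp) (by simp)
        · have h1 := ns_insS ω hB.tail.tail (crossF δ q0 q x).2
          simp only [List.cons_append, Sys.insF, h1]
          rw [Sys.scons_of_ne (by simp)]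
    | fuel :: B1, hn, hB, dflt =>
      match B1, hn, hB, dflt with
      | [], _, _, dflt => exact dflt (by simp [Sys.insF])
      | zero :: _, _, hB, _ => exact absurd rfl (hB zero (by simp)).1
      | stop :: _, _, hB, _ => exact absurd rfl (hB stop (by simp)).2
      | fuel :: B, _, hB, dflt => exact dflt (by simp [Sys.insF])
      | cell x :: B, hn, hB, dflt =>
        obtain ⟨B', hB', hZ⟩ := ih B (by simp at hn; omega) hB.tail.tail
        refine ⟨cell x :: B', hB'.cons (by simp) (by simp), ?_⟩
        simp only [List.cons_append, Sys.insF, hZ]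
        exact ns_scons hB' _
      | sig q :: B2, hn, hB, dflt =>
        match B2, hn, hB, dflt with
        | [], hn, hB, dflt =>
          cases q with
          | none => exact dflt (by simp [Sys.insF, outF])
          | some q =>
            refine ⟨(ω q).map (fun x => cell (some x)), ?_, by simp [Sys.insF, outF]⟩
            intro s hs
            obtain ⟨x, _, rfl⟩ := List.mem_map.mp hs
            simp
        | zero :: _, _, hB, _ => exact absurd rfl (hB zero (by simp)).1
        | stop :: _, _, hB, _ => exact absurd rfl (hB stop (by simp)).2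
        | cell x :: B, _, hB, dflt => exact dflt (by simp [Sys.insF])
        | fuel :: B, _, hB, dflt => exact dflt (by simp [Sys.insF])
        | sig q :: B, _, hB, dflt => exact dflt (by simp [Sys.insF])

theorem ns_foldr {B : List (L X Q)} (hB : NS B) (m : List (L X Q)) (hm : NS m) :
    ∃ B' : List (L X Q), NS B' ∧
      m.foldr (Sys.ins (crossF δ q0) (outF (X := X) ω)) (B ++ [stop]) = B' ++ [stop] := by
  induction m with
  | nil => exact ⟨B, hB, rfl⟩
  | cons t m ih =>
    obtain ⟨B', hB', h⟩ := ih hm.tail
    rw [List.foldr_cons, h]
    cases t with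
    | zero => exact absurd rfl (hm zero (by simp)).1
    | stop => exact absurd rfl (hm stop (by simp)).2
    | fuel => exact ns_insF δ ω q0 _ B' le_rfl hB'
    | cell x => exact ⟨cell x :: B', hB'.cons (by simp) (by simp), ns_scons hB' _⟩
    | sig q => exact ⟨sig q :: B', hB'.cons (by simp) (by simp), ns_insS ω hB' _⟩

theorem nf_ns_ne_zero (c : List X) (m : List (L X Q)) (hm : NS m) :
    Sys.nf (crossF δ q0) (outF (X := X) ω) (m ++ aw c) ≠ [zero] := by
  rw [Sys.nf_append, nf_aw]
  have hu : NS (uw c : List (L X Q)) := by
    intro s hs
    simp only [uw, List.mem_cons, List.mem_map] at hs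
    rcases hs with rfl | ⟨x, _, rfl⟩ <;> simp
  obtain ⟨B', _, h⟩ := ns_foldr δ ω q0 hu m hm
  rw [aw, h]
  intro h2
  have h4 := congrArg (fun l => (stop : L X Q) ∈ l) h2
  simp at h4

/-- Reachability in the signal system. -/
abbrev Steps (p q : List (L X Q)) : Prop :=
  ReflTransGen (Step (Sys.RS (crossF δ q0) (outF (X := X) ω))) p q

theorem fuels_cross (x : Option X) (n : ℕ) : ∀ (W : List (L X Q)),
    Steps δ ω q0 (List.replicate (2 * n) fuel ++ cell x :: W)
      (cell x :: (List.replicate n fuel ++ W)) := by
  induction n with
  | zero => intro W; exact ReflTransGen.refl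
  | succ n ih =>
    intro W
    have h1 : (List.replicate (2 * (n + 1)) fuel ++ cell x :: W : List (L X Q)) =
        List.replicate (2 * n) fuel ++ ([fuel, fuel, cell x] ++ W) := by
      rw [show 2 * (n + 1) = 2 * n + 2 by ring, List.replicate_add]
      simp [List.replicate]
    have h2 : (List.replicate (n + 1) fuel ++ W : List (L X Q)) =
        List.replicate n fuel ++ fuel :: W := by
      rw [List.replicate_add]
      simp [List.replicate]
    rw [h1, h2]
    refine (steps_append_left (Sys.step_of_rule _ _ (Sys.Rule.fuel x) W) _).trans ?_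
    exact ih (fuel :: W)

/-- The amount of fuel needed to cross a word. -/
def need : ℕ → ℕ
  | 0 => 2
  | n + 1 => 2 * need n + 1

theorem run_move (q : Option Q) (x : Option X) (n : ℕ) (W : List (L X Q)) :
    Steps δ ω q0 (List.replicate (2 * n + 1) fuel ++ sig q :: cell x :: W)
      (cell (crossF δ q0 q x).1 :: (List.replicate n fuel ++ sig (crossF δ q0 q x).2 :: W)) := by
  have h1 : (List.replicate (2 * n + 1) fuel ++ sig q :: cell x :: W : List (L X Q)) =
      List.replicate (2 * n) fuel ++ ([fuel, sig q, cell x] ++ W) := by
    rw [List.replicate_add]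
    simp [List.replicate]
  rw [h1]
  refine (steps_append_left (Sys.step_of_rule _ _ (Sys.Rule.move q x) W) _).trans ?_
  exact fuels_cross δ ω q0 _ n _

theorem run_pass (c : List X) : ∀ (q : Option Q) (t : L X Q) (W : List (L X Q)),
    Steps δ ω q0 (List.replicate (need c.length) fuel ++
      sig q :: (c.map (fun x => cell (some x)) ++ stop :: t :: W))
      (match pass δ ω q c with
        | none => [zero]
        | some c' => c'.map (fun x => cell (some x)) ++ stop :: t :: W) := by
  induction c with
  | nil =>
    intro q t W
    cases q with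
    | none =>
      simp only [pass, List.length_nil, need, List.map_nil, List.nil_append]
      have h1 : Steps δ ω q0 ([sig none, stop, t] ++ W) ([zero] ++ W) :=
        Sys.step_of_rule _ _ (Sys.Rule.halt none t rfl) W
      exact (steps_append_left h1 (List.replicate 2 fuel)).trans
        (Sys.zero_mid_steps _ _ (List.replicate 2 fuel) W)
    | some q =>
      simp only [pass, List.length_nil, need, List.map_nil, List.nil_append]
      have h1 : Steps δ ω q0 ([fuel, fuel, sig (some q), stop] ++ (t :: W)) _ :=
        Sys.step_of_rule _ _ (Sys.Rule.done (some q) ((ω q).map some) rfl) (t :: W)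
      simpa [List.replicate, Function.comp_def] using h1
  | cons x c ih =>
    intro q t W
    simp only [List.length_cons, need, List.map_cons, List.cons_append]
    refine (run_move δ ω q0 q (some x) (need c.length) _).trans ?_
    refine (steps_cons (ih _ t W) _).trans ?_
    cases q with
    | none =>
      simp only [crossF, pass_none]
      exact Sys.zero_mid_steps _ _ [cell (some x)] []
    | some q =>
      simp only [crossF, pass]
      cases h : pass δ ω (δ q x).2 c with
      | none =>
        simp only [Option.map_none]
        exact Sys.zero_mid_steps _ _ [cell (some (δ q x).1)] []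
      | some c' => exact ReflTransGen.refl

theorem run_uw (c : List X) (t : L X Q) (W : List (L X Q)) :
    Steps δ ω q0 (List.replicate (2 * need c.length + 1) fuel ++
      sig (some q0) :: (uw c ++ stop :: t :: W))
      (match pass δ ω (some q0) c with
        | none => [zero]
        | some c' => uw c' ++ stop :: t :: W) := by
  have h1 : (uw c ++ stop :: t :: W : List (L X Q)) =
    cell none :: (c.map (fun x => cell (some x)) ++ stop :: t :: W) := by simp [uw]
  rw [h1]
  refine (run_move δ ω q0 (some q0) none (need c.length) _).trans ?_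
  refine (steps_cons (run_pass δ ω q0 c _ t W) _).trans ?_
  simp only [crossF]
  cases h : pass δ ω (some q0) c with
  | none => exact Sys.zero_mid_steps _ _ [cell none] []
  | some c' => exact ReflTransGen.refl

theorem iter_succ' (k : ℕ) (c : List X) :
    iter δ ω q0 (k + 1) c = (pass δ ω (some q0) c).bind (iter δ ω q0 k) := by
  induction k with
  | zero => simp [iter]
  | succ k ih =>
    rw [iter, ih]
    cases pass δ ω (some q0) c with
    | none => rfl
    | some c' => rfl

/-- If the iteration halts, some word `m` kills `a t` for every letter `t`. -/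
theorem exists_killer (k : ℕ) : ∀ c : List X, iter δ ω q0 k c = none →
    ∃ m : List (L X Q), NS m ∧ ∀ (t : L X Q) (W : List (L X Q)),
      Steps δ ω q0 (m ++ (uw c ++ stop :: t :: W)) [zero] := by
  induction k with
  | zero => intro c h; simp [iter] at h
  | succ k ih =>
    intro c h
    rw [iter_succ'] at h
    have hns : NS (List.replicate (2 * need c.length + 1) fuel ++ [sig (some q0)] :
        List (L X Q)) := by
      intro s hs
      simp only [List.mem_append, List.mem_replicate, List.mem_singleton] at hs
      rcases hs with ⟨_, rfl⟩ | rfl <;> simp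
    cases h1 : pass δ ω (some q0) c with
    | none =>
      refine ⟨_, hns, fun t W => ?_⟩
      have := run_uw δ ω q0 c t W
      rw [h1] at this
      simpa using this
    | some c' =>
      rw [h1] at h
      obtain ⟨m, hm, hk⟩ := ih c' h
      refine ⟨m ++ (List.replicate (2 * need c.length + 1) fuel ++ [sig (some q0)]), ?_,
        fun t W => ?_⟩
      · intro s hs
        rcases List.mem_append.mp hs with hs | hs
        · exact hm s hs
        · exact hns s hs
      · have := run_uw δ ω q0 c t W
        rw [h1] at this
        have h2 := steps_append_left this m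
        have h3 := h2.trans (hk t W)
        simpa [List.append_assoc] using h3

/-- The monoid of the system. -/
abbrev MM : Type := Mon (Sys.RS (crossF δ q0) (outF (X := X) ω))

/-- Main equivalence: `a` and `b` are c-conjugate exactly when the iteration never halts. -/
theorem cconj_iff (c : List X) :
    CConj (M := MM δ ω q0) (cls _ (aw c)) (cls _ (bw c)) ↔ ∀ k, iter δ ω q0 k c ≠ none := by
  have hne : (cls (Sys.RS (crossF δ q0) (outF (X := X) ω)) (aw c)) ≠ cls _ (bw c) := by
    rw [Ne, Sys.cls_eq_iff, nf_aw, nf_bw]
    simp [aw, uw, bw]
  have ha0 : (cls (Sys.RS (crossF δ q0) (outF (X := X) ω)) (aw c)) ≠ cls _ [zero] := by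
    rw [Ne, Sys.cls_eq_zero_iff, nf_aw]
    simp [aw, uw]
  have hb0 : (cls (Sys.RS (crossF δ q0) (outF (X := X) ω)) (bw c)) ≠ cls _ [zero] := by
    rw [Ne, Sys.cls_eq_zero_iff, nf_bw]
    simp [uw, bw]
  constructor
  · rintro ⟨g, hg, h, _, hgab, _⟩ k hk
    obtain ⟨m, hm, hkill⟩ := exists_killer δ ω q0 k c hk
    obtain ⟨G, rfl⟩ := cls_surj g
    have hg1 := (hg _ (Sys.isZero_zero _ _)).2 ha0
    rcases G with _ | ⟨t, G⟩
    · rw [cls_nil, mul_one, one_mul] at hgab
      exact hne hgab
    · have h1 := hg1 (cls _ m)
      have h2 : cls (Sys.RS (crossF δ q0) (outF (X := X) ω)) m * cls _ (aw c) *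
          cls _ (t :: G) = cls _ [zero] := by
        rw [← cls_append, ← cls_append]
        apply cls_eq_of_steps
        have := hkill t G
        simpa [aw, List.append_assoc] using this
      have h3 := h1 h2
      rw [← cls_append, Sys.cls_eq_zero_iff] at h3
      exact nf_ns_ne_zero δ ω q0 c m hm h3
  · intro hN
    refine ⟨cls _ (uw c), ?_, cls _ [stop], ?_, ?_, ?_⟩
    · intro z hz
      rw [Sys.isZero_unique _ _ hz]
      refine ⟨fun h => absurd h ha0, fun _ m hm => ?_⟩
      obtain ⟨m, rfl⟩ := cls_surj m
      rw [← cls_append, ← cls_append, Sys.cls_eq_zero_iff] at hm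
      rw [← cls_append, Sys.cls_eq_zero_iff]
      exact mem_first δ ω q0 hN m hm
    · intro z hz
      rw [Sys.isZero_unique _ _ hz]
      refine ⟨fun h => absurd h hb0, fun _ m hm => ?_⟩
      obtain ⟨m, rfl⟩ := cls_surj m
      rw [← cls_append, ← cls_append, Sys.cls_eq_zero_iff] at hm
      rw [← cls_append, Sys.cls_eq_zero_iff]
      exact mem_second δ ω q0 c m hm
    · rw [← cls_append, ← cls_append]
      simp [aw, bw]
    · rw [← cls_append, ← cls_append]
      simp [aw, bw]

end Pass

end Pool.Agent.Helper88
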