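import Mathlib

/-!
Basic definitions for string rewriting, the monoid `M(Σ;R)` and c-conjugacy.
-/

namespace Pool.Agent.Helper88

open Relation

/-- One rewriting step `u x v → u y v` with `(x, y) ∈ R`. -/
def Step {α : Type} (R : Set (List α × List α)) (p q : List α) : Prop :=
  ∃ u v x y : List α, (x, y) ∈ R ∧ p = u ++ x ++ v ∧ q = u ++ y ++ v

/-- Every rule strictly decreases length. -/
def LengthReducing {α : Type} (R : Set (List α × List α)) : Prop :=
  ∀ x y : List α, (x, y) ∈ R → y.length < x.length

/-- Confluence of the rewriting relation. -/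
def Confluent {α : Type} (R : Set (List α × List α)) : Prop :=
  ∀ u v w : List α, ReflTransGen (Step R) u v → ReflTransGen (Step R) u w →
    ∃ z, ReflTransGen (Step R) v z ∧ ReflTransGen (Step R) w z

/-- The defining relations of `M(Σ;R)`. -/
def Rels {α : Type} (R : Set (List α × List α)) : FreeMonoid α → FreeMonoid α → Prop :=
  fun x y => (FreeMonoid.toList x, FreeMonoid.toList y) ∈ R

/-- The monoid `M(Σ;R)`. -/
abbrev Mon {α : Type} (R : Set (List α × List α)) : Type := PresentedMonoid (Rels R)

/-- The class `[u]` of a word in `M(Σ;R)`. -/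
def cls {α : Type} (R : Set (List α × List α)) (u : List α) : Mon R :=
  PresentedMonoid.mk (Rels R) (FreeMonoid.ofList u)

/-- `z` is a zero of the monoid `M`. -/
def IsZeroOf {M : Type} [Monoid M] (z : M) : Prop := ∀ m : M, z * m = z ∧ m * z = z

/-- The set `P(a)`: all of `M` if `M` has no zero; if `z` is the zero, then `P(z) = {z}` and, for
`a ≠ z`, `P(a) = {g | ∀ m, m a g = z → m a = z}`. -/
def PSet {M : Type} [Monoid M] (a : M) : Set M :=
  {g | ∀ z : M, IsZeroOf z → (a = z → g = z) ∧ (a ≠ z → ∀ m : M, m * a * g = z → m * a = z)}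

/-- c-conjugacy in a monoid. -/
def CConj {M : Type} [Monoid M] (a b : M) : Prop :=
  ∃ g ∈ PSet a, ∃ h ∈ PSet b, a * g = g * b ∧ b * h = h * a

section basics

variable {α : Type} {R : Set (List α × List α)}

theorem Step.context {p q : List α} (h : Step R p q) (u v : List α) :
    Step R (u ++ p ++ v) (u ++ q ++ v) := by
  obtain ⟨a, b, x, y, hxy, rfl, rfl⟩ := h
  exact ⟨u ++ a, b ++ v, x, y, hxy, by simp [List.append_assoc], by simp [List.append_assoc]⟩

theorem steps_context {p q : List α} (h : ReflTransGen (Step R) p q) (u v : List α) :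
    ReflTransGen (Step R) (u ++ p ++ v) (u ++ q ++ v) := by
  induction h with
  | refl => exact ReflTransGen.refl
  | tail _ h2 ih => exact ih.tail (h2.context u v)

theorem steps_cons {p q : List α} (h : ReflTransGen (Step R) p q) (a : α) :
    ReflTransGen (Step R) (a :: p) (a :: q) := by
  have := steps_context h [a] []
  simpa using this

theorem steps_append_left {p q : List α} (h : ReflTransGen (Step R) p q) (u : List α) :
    ReflTransGen (Step R) (u ++ p) (u ++ q) := by
  have := steps_context h u []
  simpa using this

theorem steps_append_right {p q : List α} (h : ReflTransGen (Step R) p q) (v : List α) :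
    ReflTransGen (Step R) (p ++ v) (q ++ v) := by
  have := steps_context h [] v
  simpa using this

theorem step_rule {x y : List α} (h : (x, y) ∈ R) (v : List α) : Step R (x ++ v) (y ++ v) :=
  ⟨[], v, x, y, h, by simp, by simp⟩

theorem cls_append (u v : List α) : cls R (u ++ v) = cls R u * cls R v := by
  simp [cls, FreeMonoid.ofList_append]

theorem cls_nil : cls R ([] : List α) = 1 := by
  simp [cls]

theorem cls_surj (m : Mon R) : ∃ u : List α, cls R u = m := by
  obtain ⟨x, hx⟩ := PresentedMonoid.surjective_mk (rels := Rels R) m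
  exact ⟨FreeMonoid.toList x, by simpa [cls] using hx⟩

theorem cls_eq_of_step {p q : List α} (h : Step R p q) : cls R p = cls R q := by
  obtain ⟨u, v, x, y, hxy, rfl, rfl⟩ := h
  rw [cls_append, cls_append, cls_append, cls_append]
  congr 2
  apply PresentedMonoid.mk_eq_mk_of_rel
  simpa [Rels] using hxy

theorem cls_eq_of_steps {p q : List α} (h : ReflTransGen (Step R) p q) : cls R p = cls R q := by
  induction h with
  | refl => rfl
  | tail _ h2 ih => exact ih.trans (cls_eq_of_step h2)

end basics

end Pool.Agent.Helper88
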