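import Pool.Agent.Helper88.Rewriting

/-!
The signal rewriting system: fuel and signals travel to the right through cells.
-/

namespace Pool.Agent.Helper88

open Relation

/-- Letters of the signal rewriting system. -/
inductive Letter (C S : Type)
  | zero | fuel | stop
  | cell (x : C)
  | sig (q : S)
  deriving DecidableEq, Fintype

namespace Sys

open Letter

variable {C S : Type} (cross : S → C → C × S) (out : S → Option (List C))

/-- The rules of the signal rewriting system. -/
inductive Rule : List (Letter C S) → List (Letter C S) → Prop
  | move (q : S) (x : C) : Rule [fuel, sig q, cell x] [cell (cross q x).1, sig (cross q x).2]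
  | fuel (x : C) : Rule [fuel, fuel, cell x] [cell x, fuel]
  | done (q : S) (l : List C) (h : out q = some l) :
      Rule [fuel, fuel, sig q, stop] (l.map cell ++ [stop])
  | halt (q : S) (t : Letter C S) (h : out q = none) : Rule [sig q, stop, t] [zero]
  | zl (t : Letter C S) : Rule [zero, t] [zero]
  | zr (t : Letter C S) : Rule [t, zero] [zero]

/-- The rewriting system as a set of pairs. -/
def RS : Set (List (Letter C S) × List (Letter C S)) := {p | Rule cross out p.1 p.2}

/-- Put a letter in front, with zero absorbing. -/
def scons (t : Letter C S) : List (Letter C S) → List (Letter C S)
  | zero :: _ => [zero]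
  | W => t :: W

/-- Insert a signal in front of a normal form. -/
def insS (q : S) : List (Letter C S) → List (Letter C S)
  | zero :: _ => [zero]
  | stop :: t :: W => match out q with
    | none => [zero]
    | some _ => sig q :: stop :: t :: W
  | W => sig q :: W

/-- Insert one fuel letter in front of a normal form. -/
def insF : List (Letter C S) → List (Letter C S)
  | zero :: _ => [zero]
  | fuel :: cell x :: W => scons (cell x) (insF W)
  | sig q :: cell x :: W => scons (cell (cross q x).1) (insS out (cross q x).2 W)
  | fuel :: sig q :: stop :: W => match out q with
    | none => fuel :: fuel :: sig q :: stop :: W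
    | some l => l.map cell ++ stop :: W
  | W => fuel :: W

/-- Insert one letter in front of a normal form. -/
def ins : Letter C S → List (Letter C S) → List (Letter C S)
  | zero, _ => [zero]
  | fuel, W => insF cross out W
  | stop, W => scons stop W
  | cell x, W => scons (cell x) W
  | sig q, W => insS out q W

/-- Normal form. -/
def nf (w : List (Letter C S)) : List (Letter C S) := w.foldr (ins cross out) []

theorem scons_of_ne {t : Letter C S} {W : List (Letter C S)} (h : W.head? ≠ some zero) :
    scons t W = t :: W := by
  rcases W with _ | ⟨a, W⟩
  · rfl
  · cases a <;> first | rfl | simp at h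

theorem ins_ne_nil (t : Letter C S) (W : List (Letter C S)) : ins cross out t W ≠ [] := by
  have hs : ∀ (t : Letter C S) (W : List (Letter C S)), scons t W ≠ [] := by
    intro t W
    unfold scons
    split <;> simp
  cases t with
  | zero => simp [ins]
  | fuel =>
    simp only [ins]
    unfold insF
    split
    · simp
    · exact hs _ _
    · exact hs _ _
    · split <;> simp
    · simp
  | stop => exact hs _ _
  | cell x => exact hs _ _
  | sig q =>
    simp only [ins]
    unfold insS
    split
    · simp
    · split <;> simp
    · simp


theorem length_reducing (hout : ∀ q l, out q = some l → l.length ≤ 2) :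
    LengthReducing (RS cross out) := by
  intro x y h
  have h' : Rule cross out x y := h
  cases h' with
  | move q x => simp
  | fuel x => simp
  | done q l hl => have := hout q l hl; simp; omega
  | halt q t h => simp
  | zl t => simp
  | zr t => simp

theorem step_of_rule {x y : List (Letter C S)} (h : Rule cross out x y) (v : List (Letter C S)) :
    ReflTransGen (Step (RS cross out)) (x ++ v) (y ++ v) :=
  ReflTransGen.single (step_rule (R := RS cross out) h v)

theorem zero_steps (W : List (Letter C S)) :
    ReflTransGen (Step (RS cross out)) (zero :: W) [zero] := by
  induction W with
  | nil => exact ReflTransGen.refl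
  | cons t W ih => exact (step_of_rule cross out (Rule.zl t) W).trans ih

theorem zero_right_steps (W : List (Letter C S)) :
    ReflTransGen (Step (RS cross out)) (W ++ [zero]) [zero] := by
  induction W with
  | nil => exact ReflTransGen.refl
  | cons t W ih =>
    exact (steps_cons ih t).trans (step_of_rule cross out (Rule.zr t) [])

theorem zero_mid_steps (U W : List (Letter C S)) :
    ReflTransGen (Step (RS cross out)) (U ++ zero :: W) [zero] :=
  (steps_append_left (zero_steps cross out W) U).trans (zero_right_steps cross out U)

theorem scons_steps (t : Letter C S) (W : List (Letter C S)) :
    ReflTransGen (Step (RS cross out)) (t :: W) (scons t W) := by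
  unfold scons
  split
  · rename_i W
    exact zero_mid_steps cross out [t] W
  · exact ReflTransGen.refl

theorem insS_steps (q : S) (W : List (Letter C S)) :
    ReflTransGen (Step (RS cross out)) (sig q :: W) (insS out q W) := by
  unfold insS
  split
  · rename_i W
    exact zero_mid_steps cross out [sig q] W
  · rename_i t W
    split
    · rename_i h
      exact (step_of_rule cross out (Rule.halt q t h) W).trans (zero_steps cross out W)
    · exact ReflTransGen.refl
  · exact ReflTransGen.refl

theorem insF_steps (W : List (Letter C S)) :
    ReflTransGen (Step (RS cross out)) (fuel :: W) (insF cross out W) := by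
  fun_induction insF cross out W with
  | case1 W => exact zero_mid_steps cross out [fuel] W
  | case2 x W ih =>
    refine (step_of_rule cross out (Rule.fuel x) W).trans ?_
    exact (steps_cons ih (cell x)).trans (scons_steps cross out _ _)
  | case3 q x W =>
    refine (step_of_rule cross out (Rule.move q x) W).trans ?_
    exact (steps_cons (insS_steps cross out _ W) _).trans (scons_steps cross out _ _)
  | case4 q W h => exact ReflTransGen.refl
  | case5 q W l h =>
    have := step_of_rule cross out (Rule.done q l h) W
    simpa using this
  | case6 W => exact ReflTransGen.refl

theorem ins_steps (t : Letter C S) (W : List (Letter C S)) :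
    ReflTransGen (Step (RS cross out)) (t :: W) (ins cross out t W) := by
  cases t with
  | zero => exact zero_steps cross out W
  | fuel => exact insF_steps cross out W
  | stop => exact scons_steps cross out _ _
  | cell x => exact scons_steps cross out _ _
  | sig q => exact insS_steps cross out q W

theorem nf_steps (w : List (Letter C S)) :
    ReflTransGen (Step (RS cross out)) w (nf cross out w) := by
  induction w with
  | nil => exact ReflTransGen.refl
  | cons t w ih => exact (steps_cons ih t).trans (ins_steps cross out t _)

theorem foldr_zero (w : List (Letter C S)) : w.foldr (ins cross out) [zero] = [zero] := by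
  induction w with
  | nil => rfl
  | cons t w ih =>
    rw [List.foldr_cons, ih]
    cases t <;> simp [ins, insF, insS, scons]

theorem foldr_zero' (w W : List (Letter C S)) (h : w ≠ []) :
    w.foldr (ins cross out) (zero :: W) = [zero] := by
  have key : ∀ t : Letter C S, ins cross out t (zero :: W) = [zero] := by
    intro t
    cases t <;> simp [ins, insF, insS, scons]
  rcases List.eq_nil_or_concat w with rfl | ⟨w', t, rfl⟩
  · exact absurd rfl h
  · simp only [List.concat_eq_append, List.foldr_append, List.foldr_cons, List.foldr_nil]
    rw [key, foldr_zero]

theorem foldr_cells (l : List C) (W : List (Letter C S)) (h : W.head? ≠ some zero) :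
    (l.map cell).foldr (ins cross out) W = l.map cell ++ W := by
  induction l with
  | nil => rfl
  | cons x l ih =>
    rw [List.map_cons, List.foldr_cons, ih]
    simp only [ins]
    rw [scons_of_ne]
    · rfl
    · cases l <;> simp [h]

/-- Acting by the two sides of a rule gives the same result. -/
theorem rule_act {x y : List (Letter C S)} (h : Rule cross out x y) (W : List (Letter C S)) :
    x.foldr (ins cross out) W = y.foldr (ins cross out) W := by
  by_cases hW : W.head? = some zero
  · obtain ⟨W', rfl⟩ : ∃ W', W = zero :: W' := by
      rcases W with _ | ⟨a, W⟩
      · simp at hW
      · simp only [List.head?_cons, Option.some.injEq] at hW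
        exact ⟨W, by rw [hW]⟩
    rw [foldr_zero' cross out, foldr_zero' cross out]
    · cases h <;> simp
    · cases h <;> simp
  · cases h with
    | move q x =>
      simp only [List.foldr_cons, List.foldr_nil, ins]
      rw [scons_of_ne hW]
      simp [insS, insF]
    | fuel x =>
      simp only [List.foldr_cons, List.foldr_nil, ins]
      rw [scons_of_ne hW]
      simp [insF]
    | done q l hl =>
      rw [List.foldr_append]
      simp only [List.foldr_cons, List.foldr_nil]
      have h1 : ins cross out stop W = stop :: W := by
        simp only [ins]
        rw [scons_of_ne hW]
      rw [h1, foldr_cells]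
      · have h2 : ins cross out (sig q) (stop :: W) = sig q :: stop :: W := by
          cases W with
          | nil => simp [ins, insS]
          | cons a W => simp [ins, insS, hl]
        rw [h2]
        simp [ins, insF, hl]
      · simp
    | halt q t hq =>
      simp only [List.foldr_cons, List.foldr_nil]
      have h1 := ins_ne_nil cross out t W
      generalize ins cross out t W = V at h1
      have h2 : ins cross out (sig q) (ins cross out stop V) = [zero] := by
        by_cases hV : V.head? = some zero
        · obtain ⟨V', rfl⟩ : ∃ V', V = zero :: V' := by
            rcases V with _ | ⟨a, V⟩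
            · simp at hV
            · simp only [List.head?_cons, Option.some.injEq] at hV
              exact ⟨V, by rw [hV]⟩
          simp [ins, scons, insS]
        · simp only [ins]
          rw [scons_of_ne hV]
          rcases V with _ | ⟨a, V⟩
          · exact absurd rfl h1
          · simp [insS, hq]
      rw [h2]
      simp [ins]
    | zl t => simp [ins]
    | zr t =>
      simp only [List.foldr_cons, ins]
      cases t <;> simp [insF, insS, scons]

theorem step_act {p q : List (Letter C S)} (h : Step (RS cross out) p q)
    (W : List (Letter C S)) : p.foldr (ins cross out) W = q.foldr (ins cross out) W := by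
  obtain ⟨u, v, x, y, hxy, rfl, rfl⟩ := h
  rw [List.foldr_append, List.foldr_append, List.foldr_append, List.foldr_append,
    rule_act cross out hxy]

theorem steps_act {p q : List (Letter C S)} (h : ReflTransGen (Step (RS cross out)) p q)
    (W : List (Letter C S)) : p.foldr (ins cross out) W = q.foldr (ins cross out) W := by
  induction h with
  | refl => rfl
  | tail _ h2 ih => exact ih.trans (step_act cross out h2 W)

theorem confluent : Confluent (RS cross out) := by
  intro u v w huv huw
  refine ⟨nf cross out u, ?_, ?_⟩
  · have : nf cross out u = nf cross out v := steps_act cross out huv []
    rw [this]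
    exact nf_steps cross out v
  · have : nf cross out u = nf cross out w := steps_act cross out huw []
    rw [this]
    exact nf_steps cross out w

/-- The action of one letter as an endofunction. -/
def actL (t : Letter C S) : Function.End (List (Letter C S)) := ins cross out t

theorem lift_actL (w : FreeMonoid (Letter C S)) (W : List (Letter C S)) :
    (FreeMonoid.lift (actL cross out) w : Function.End (List (Letter C S))) W =
      (FreeMonoid.toList w).foldr (ins cross out) W := by
  induction w using FreeMonoid.recOn generalizing W with
  | one => rfl
  | of_mul x xs ih =>
    rw [map_mul]
    simp only [FreeMonoid.lift_eval_of, FreeMonoid.toList_of_mul, List.foldr_cons]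
    rw [← ih]
    rfl

/-- The action of the monoid on words. -/
def act : Mon (RS cross out) →* Function.End (List (Letter C S)) :=
  PresentedMonoid.lift (actL cross out) (by
    intro a b hab
    funext W
    rw [lift_actL, lift_actL]
    exact rule_act cross out hab W)

theorem act_cls (w : List (Letter C S)) (W : List (Letter C S)) :
    act cross out (cls _ w) W = w.foldr (ins cross out) W := by
  exact lift_actL cross out (FreeMonoid.ofList w) W

theorem cls_eq_iff (u v : List (Letter C S)) :
    cls (RS cross out) u = cls (RS cross out) v ↔ nf cross out u = nf cross out v := by
  constructor
  · intro h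
    have := congrArg (fun m => act cross out m []) h
    simp only [act_cls] at this
    exact this
  · intro h
    rw [cls_eq_of_steps (nf_steps cross out u), cls_eq_of_steps (nf_steps cross out v), h]

theorem nf_append (u v : List (Letter C S)) :
    nf cross out (u ++ v) = u.foldr (ins cross out) (nf cross out v) := by
  simp [nf, List.foldr_append]

theorem nf_singleton_zero : nf cross out [zero] = [zero] := by simp [nf, ins]

/-- The class of `zero` is a zero of the monoid. -/
theorem isZero_zero : IsZeroOf (cls (RS cross out) [zero]) := by
  intro m
  obtain ⟨u, rfl⟩ := cls_surj m
  rw [← cls_append, ← cls_append, cls_eq_iff, cls_eq_iff]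
  constructor
  · simp [nf, ins]
  · simp [nf, List.foldr_append, ins, foldr_zero]

theorem isZero_unique {z : Mon (RS cross out)} (hz : IsZeroOf z) :
    z = cls (RS cross out) [zero] := by
  have h1 := (hz (cls (RS cross out) [zero])).1
  have h2 := (isZero_zero cross out z).2
  rw [← h1, h2]

theorem cls_eq_zero_iff (u : List (Letter C S)) :
    cls (RS cross out) u = cls (RS cross out) [zero] ↔ nf cross out u = [zero] := by
  rw [cls_eq_iff, nf_singleton_zero]

theorem cls_eq_one {u : List (Letter C S)} (h : cls (RS cross out) u = 1) : u = [] := by
  rw [← cls_nil, cls_eq_iff] at h
  rcases u with _ | ⟨t, u⟩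
  · rfl
  · exact absurd h (ins_ne_nil cross out t _)

end Sys

end Pool.Agent.Helper88
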