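import Pool.Agent.Helper88.Pass

/-!
A one-tape machine (model `Turing.TM0`) as an iterated one-way pass.
-/

namespace Pool.Agent.Helper88

open Turing

namespace TMPass

variable {Γ Λ : Type} [Inhabited Γ] [Inhabited Λ]

/-- Transition of the pass signals; `K` is the finite part of the set of machine states in use. -/
def dl {K : Type} (M : K → Γ → Option (K × TM0.Stmt Γ)) :
    ((Option K × Γ) ⊕ (Γ × K)) → (Option K × Γ) →
      (Option K × Γ) × Option ((Option K × Γ) ⊕ (Γ × K))
  | Sum.inl b, (none, a) => (b, some (Sum.inl (none, a)))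
  | Sum.inl b, (some q, a) =>
    match M q a with
    | none => (b, none)
    | some (q', TM0.Stmt.move Dir.left) => ((some q', b.2), some (Sum.inl (none, a)))
    | some (q', TM0.Stmt.move Dir.right) => (b, some (Sum.inr (a, q')))
    | some (q', TM0.Stmt.write a') => (b, some (Sum.inl (some q', a')))
  | Sum.inr (a, q), (_, c) => ((none, a), some (Sum.inl (some q, c)))

/-- Output at the end of a pass. -/
def om {K : Type} : ((Option K × Γ) ⊕ (Γ × K)) → List (Option K × Γ)
  | Sum.inl b => [b]
  | Sum.inr (a, q) => [(none, a), (some q, default)]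

/-- Initial signal. -/
def q0 (K : Type) : (Option K × Γ) ⊕ (Γ × K) := Sum.inl (none, default)

/-- Plain cells. -/
def pl {K : Type} (l : List Γ) : List (Option K × Γ) := l.map (fun a => (none, a))

/-- The word of a configuration with left part `Lf` (head-adjacent first), state `q`, scanned letter
`a` and right part `Rt`. -/
def wd {K : Type} (Lf : List Γ) (q : K) (a : Γ) (Rt : List Γ) : List (Option K × Γ) :=
  pl Lf.reverse ++ (some q, a) :: pl Rt

variable {K : Type} (M : K → Γ → Option (K × TM0.Stmt Γ))

theorem pass_flush (Rt : List Γ) : ∀ b : Option K × Γ,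
    Pass.pass (dl M) om (some (Sum.inl b)) (pl Rt) = some (b :: pl Rt) := by
  induction Rt with
  | nil => intro b; rfl
  | cons a Rt ih =>
    intro b
    have h := ih (none, a)
    simp only [pl, List.map_cons] at h ⊢
    simp only [Pass.pass, dl, h, Option.map_some]

theorem pass_left (l : List Γ) (rest : List (Option K × Γ)) : ∀ b : Γ,
    Pass.pass (dl M) om (some (Sum.inl (none, b))) (pl l ++ rest) =
      (Pass.pass (dl M) om (some (Sum.inl (none, (b :: l).getLast (by simp)))) rest).map
        (fun r => pl (b :: l).dropLast ++ r) := by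
  induction l with
  | nil =>
    intro b
    simp only [pl, List.map_nil, List.nil_append, List.getLast_singleton]
    cases Pass.pass (dl M) om (some (Sum.inl (none, b))) rest <;> simp
  | cons a l ih =>
    intro b
    have h := ih a
    have h1 : (pl (a :: l) : List (Option K × Γ)) = (none, a) :: pl l := rfl
    rw [h1, List.cons_append]
    simp only [Pass.pass, dl, h, Option.map_map]
    have h5 : (b :: a :: l).getLast (by simp) = (a :: l).getLast (by simp) :=
      List.getLast_cons (by simp)
    rw [h5]
    rfl

/-- One pass over the word of a configuration. -/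
theorem pass_wd (Lf : List Γ) (q : K) (a : Γ) (Rt : List Γ) :
    Pass.pass (dl M) om (some (q0 K)) (wd Lf q a Rt) =
      match M q a with
      | none => none
      | some (q', TM0.Stmt.move Dir.left) =>
        some (wd (Lf ++ [default]).tail q' ((Lf ++ [default]).headI) (a :: Rt))
      | some (q', TM0.Stmt.move Dir.right) =>
        some (wd (a :: (Lf ++ [default])) q' Rt.headI Rt.tail)
      | some (q', TM0.Stmt.write a') => some (wd (Lf ++ [default]) q' a' Rt) := by
  have h1 : (default :: Lf.reverse : List Γ) = (Lf ++ [default]).reverse := by simp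
  obtain ⟨x0, L', hL⟩ : ∃ x0 L', Lf ++ [default] = x0 :: L' := by
    cases Lf with
    | nil => exact ⟨default, [], rfl⟩
    | cons x Lf => exact ⟨x, Lf ++ [default], rfl⟩
  have h2 : (default :: Lf.reverse).getLast (by simp) = x0 := by
    have : (default :: Lf.reverse : List Γ) = L'.reverse ++ [x0] := by rw [h1, hL]; simp
    simp only [this, List.getLast_append_singleton]
  have h3 : (default :: Lf.reverse : List Γ).dropLast = L'.reverse := by
    have : (default :: Lf.reverse : List Γ) = L'.reverse ++ [x0] := by rw [h1, hL]; simp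
    rw [this]; simp
  rw [wd, q0, pass_left, h2, h3, hL]
  cases hM : M q a with
  | none => simp [Pass.pass, dl, hM, Pass.pass_none]
  | some p =>
    obtain ⟨q', s⟩ := p
    cases s with
    | move d =>
      cases d with
      | left =>
        simp only [Pass.pass, dl, hM, pass_flush, Option.map_some]
        simp [wd, pl]
      | right =>
        simp only [Pass.pass, dl, hM]
        cases Rt with
        | nil => simp [pl, Pass.pass, om, wd]
        | cons r Rt =>
          have h4 : (pl (r :: Rt) : List (Option K × Γ)) = (none, r) :: pl Rt := rfl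
          rw [h4]
          simp only [Pass.pass, dl, pass_flush, Option.map_some]
          simp [wd, pl]
    | write a' =>
      simp only [Pass.pass, dl, hM, pass_flush, Option.map_some]
      simp [wd, pl]

/-- The word `c` represents the configuration `cfg`. -/
def Repr (S : Set Λ) (c : List (Option S × Γ)) (cfg : TM0.Cfg Γ Λ) : Prop :=
  ∃ (Lf : List Γ) (q : S) (a : Γ) (Rt : List Γ), c = wd Lf q a Rt ∧ cfg.q = q.1 ∧
    cfg.Tape = ⟨a, ListBlank.mk Lf, ListBlank.mk Rt⟩

theorem mk_append_default (Lf : List Γ) : ListBlank.mk (Lf ++ [default]) = ListBlank.mk Lf := by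
  apply Quotient.sound
  exact Or.inr ⟨1, rfl⟩


theorem head_append_default (Lf : List Γ) : (Lf ++ [default]).headI = Lf.headI := by
  cases Lf <;> rfl

theorem mk_tail_append_default (Lf : List Γ) :
    ListBlank.mk (Lf ++ [default]).tail = (ListBlank.mk Lf).tail := by
  cases Lf with
  | nil => simp [ListBlank.tail_mk]
  | cons a Lf =>
    simp only [List.cons_append, List.tail_cons, ListBlank.tail_mk]
    exact mk_append_default Lf

variable {S : Set Λ} (N : TM0.Machine Γ Λ) (M : S → Γ → Option (S × TM0.Stmt Γ))

/-- `M` is the restriction of `N` to the states in `S`. -/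
def Restr : Prop := ∀ (q : S) (a : Γ), N q.1 a = (M q a).map (fun p => (p.1.1, p.2))

theorem sim_none (hR : Restr N M) {c : List (Option S × Γ)} {cfg : TM0.Cfg Γ Λ}
    (h : Repr S c cfg) (hn : TM0.step N cfg = none) :
    Pass.pass (dl M) om (some (q0 S)) c = none := by
  obtain ⟨Lf, q, a, Rt, rfl, hq, hT⟩ := h
  obtain ⟨cq, T⟩ := cfg
  simp only at hq hT
  subst hq hT
  rw [pass_wd]
  simp only [TM0.step, hR q a] at hn
  cases hM : M q a with
  | none => rfl
  | some p => simp [hM] at hn

theorem sim_some (hR : Restr N M) {c : List (Option S × Γ)} {cfg cfg' : TM0.Cfg Γ Λ}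
    (h : Repr S c cfg) (hn : TM0.step N cfg = some cfg') :
    ∃ c', Pass.pass (dl M) om (some (q0 S)) c = some c' ∧ Repr S c' cfg' := by
  obtain ⟨Lf, q, a, Rt, rfl, hq, hT⟩ := h
  obtain ⟨cq, T⟩ := cfg
  simp only at hq hT
  subst hq hT
  rw [pass_wd]
  simp only [TM0.step, hR q a] at hn
  cases hM : M q a with
  | none => simp [hM] at hn
  | some p =>
    obtain ⟨q', s⟩ := p
    simp only [hM, Option.map_some, Option.some.injEq] at hn
    subst hn
    cases s with
    | move d =>
      cases d with
      | left =>
        refine ⟨_, rfl, _, _, _, _, rfl, rfl, ?_⟩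
        simp only [Tape.move, mk_tail_append_default, head_append_default, ListBlank.head_mk,
          ListBlank.cons_mk]
      | right =>
        refine ⟨_, rfl, _, _, _, _, rfl, rfl, ?_⟩
        simp only [Tape.move, ListBlank.head_mk, ListBlank.tail_mk]
        rw [← ListBlank.cons_mk, mk_append_default]
    | write a' =>
      refine ⟨_, rfl, _, _, _, _, rfl, rfl, ?_⟩
      simp only [Tape.write, mk_append_default]

theorem halts_iff (hR : Restr N M) {c : List (Option S × Γ)} {cfg : TM0.Cfg Γ Λ}
    (h : Repr S c cfg) :
    (∃ k, Pass.iter (dl M) om (q0 S) k c = none) ↔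
      (StateTransition.eval (TM0.step N) cfg).Dom := by
  rw [Part.dom_iff_mem]
  simp only [StateTransition.mem_eval]
  constructor
  · rintro ⟨k, hk⟩
    induction k generalizing c cfg with
    | zero => simp [Pass.iter] at hk
    | succ k ih =>
      cases hs : TM0.step N cfg with
      | none => exact ⟨cfg, Relation.ReflTransGen.refl, hs⟩
      | some cfg' =>
        obtain ⟨c', hc', hrep⟩ := sim_some N M hR h hs
        rw [Pass.iter_succ', hc', Option.bind_some] at hk
        obtain ⟨b, hb, hb'⟩ := ih hrep hk
        exact ⟨b, Relation.ReflTransGen.head hs hb, hb'⟩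
  · rintro ⟨b, hb, hb'⟩
    unfold StateTransition.Reaches at hb
    induction hb using Relation.ReflTransGen.head_induction_on generalizing c with
    | refl =>
      refine ⟨1, ?_⟩
      rw [Pass.iter_succ', sim_none N M hR h hb']
      rfl
    | head h1 h2 ih =>
      obtain ⟨c', hc', hrep⟩ := sim_some N M hR h h1
      obtain ⟨k, hk⟩ := ih hrep
      refine ⟨k + 1, ?_⟩
      rw [Pass.iter_succ', hc', Option.bind_some, hk]

/-- The word of the initial configuration. -/
theorem repr_init (hd : (default : Λ) ∈ S) (l : List Γ) :
    Repr S (wd [] (⟨default, hd⟩ : S) l.headI l.tail) (TM0.init l : TM0.Cfg Γ Λ) := by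
  refine ⟨[], ⟨default, hd⟩, l.headI, l.tail, rfl, rfl, ?_⟩
  simp [TM0.init, Tape.mk₁, Tape.mk₂, Tape.mk', ListBlank.head_mk, ListBlank.tail_mk]

theorem halts_init_iff (hR : Restr N M) (hd : (default : Λ) ∈ S) (l : List Γ) :
    (∃ k, Pass.iter (dl M) om (q0 S) k (wd [] (⟨default, hd⟩ : S) l.headI l.tail) = none) ↔
      (TM0.eval N l).Dom := by
  rw [halts_iff N M hR (repr_init hd l)]
  rfl

/-- A machine supported by `S` restricts to `S`. -/
theorem exists_restr (hS : TM0.Supports N S) : ∃ M : S → Γ → Option (S × TM0.Stmt Γ),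
    Restr N M := by
  classical
  have h : ∀ (q : S) (a : Γ), ∃ o : Option (S × TM0.Stmt Γ),
      N q.1 a = o.map (fun p => (p.1.1, p.2)) := by
    intro q a
    cases hN : N q.1 a with
    | none => exact ⟨none, rfl⟩
    | some p =>
      obtain ⟨q', s⟩ := p
      exact ⟨some (⟨q', hS.2 (by rw [hN]; rfl) q.2⟩, s), rfl⟩
  choose M hM using h
  exact ⟨M, hM⟩

end TMPass

end Pool.Agent.Helper88
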