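import Pool.Agent.Helper88.Rewriting

/-!
Renaming letters of a rewriting system.
-/

namespace Pool.Agent.Helper88

open Relation

section

variable {α β : Type} (e : α ≃ β) (R : Set (List α × List α))

/-- The rewriting system with renamed letters. -/
def ren : Set (List β × List β) := (fun p => (p.1.map e, p.2.map e)) '' R

theorem mem_ren {x y : List β} (h : (x, y) ∈ ren e R) :
    (x.map e.symm, y.map e.symm) ∈ R := by
  obtain ⟨⟨a, b⟩, hab, h⟩ := h
  simp only [Prod.mk.injEq] at h
  obtain ⟨rfl, rfl⟩ := h
  simpa [Function.comp_def] using hab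

theorem ren_mem {x y : List α} (h : (x, y) ∈ R) : (x.map e, y.map e) ∈ ren e R :=
  ⟨(x, y), h, rfl⟩

variable {R}

theorem ren_finite (h : R.Finite) : (ren e R).Finite := h.image _

theorem ren_lengthReducing (h : LengthReducing R) : LengthReducing (ren e R) := by
  intro x y hxy
  have := h _ _ (mem_ren e R hxy)
  simpa using this

theorem ren_step {p q : List α} (h : Step R p q) : Step (ren e R) (p.map e) (q.map e) := by
  obtain ⟨u, v, x, y, hxy, rfl, rfl⟩ := h
  exact ⟨u.map e, v.map e, x.map e, y.map e, ren_mem e R hxy, by simp, by simp⟩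

theorem step_of_ren {p q : List β} (h : Step (ren e R) p q) :
    Step R (p.map e.symm) (q.map e.symm) := by
  obtain ⟨u, v, x, y, hxy, rfl, rfl⟩ := h
  exact ⟨u.map e.symm, v.map e.symm, x.map e.symm, y.map e.symm, mem_ren e R hxy,
    by simp, by simp⟩

theorem ren_steps {p q : List α} (h : ReflTransGen (Step R) p q) :
    ReflTransGen (Step (ren e R)) (p.map e) (q.map e) := by
  induction h with
  | refl => exact ReflTransGen.refl
  | tail _ h2 ih => exact ih.tail (ren_step e h2)

theorem steps_of_ren {p q : List β} (h : ReflTransGen (Step (ren e R)) p q) :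
    ReflTransGen (Step R) (p.map e.symm) (q.map e.symm) := by
  induction h with
  | refl => exact ReflTransGen.refl
  | tail _ h2 ih => exact ih.tail (step_of_ren e h2)

theorem ren_confluent (h : Confluent R) : Confluent (ren e R) := by
  intro u v w huv huw
  obtain ⟨z, h1, h2⟩ := h _ _ _ (steps_of_ren e huv) (steps_of_ren e huw)
  refine ⟨z.map e, ?_, ?_⟩
  · have := ren_steps e h1
    simpa [Function.comp_def] using this
  · have := ren_steps e h2
    simpa [Function.comp_def] using this

theorem lift_cls {M : Type} [Monoid M] (f : α → M) (w : FreeMonoid α) :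
    FreeMonoid.lift f w = ((FreeMonoid.toList w).map f).prod := by
  simp [FreeMonoid.lift_apply]

theorem prod_of_cls (u : List β) (R' : Set (List β × List β)) :
    (u.map (fun t => cls R' [t])).prod = cls R' u := by
  induction u with
  | nil => simp [cls_nil]
  | cons t u ih =>
    rw [List.map_cons, List.prod_cons, ih, ← cls_append]
    rfl

/-- The homomorphism induced by renaming. -/
def renHom : Mon R →* Mon (ren e R) :=
  PresentedMonoid.lift (fun t => cls (ren e R) [e t]) (by
    intro a b hab
    rw [lift_cls, lift_cls]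
    have h1 : ∀ w : List α, (w.map (fun t => cls (ren e R) [e t])).prod =
        cls (ren e R) (w.map e) := by
      intro w
      rw [← prod_of_cls, List.map_map]
      rfl
    rw [h1, h1]
    exact cls_eq_of_step (by
      have := step_rule (R := ren e R) (ren_mem e R (x := FreeMonoid.toList a)
        (y := FreeMonoid.toList b) hab) []
      simpa using this))

theorem renHom_cls (u : List α) : renHom e (cls R u) = cls (ren e R) (u.map e) := by
  have h0 : renHom e (cls R u) =
      FreeMonoid.lift (fun t => cls (ren e R) [e t]) (FreeMonoid.ofList u) := rfl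
  rw [h0, lift_cls, ← prod_of_cls, List.map_map]
  rfl

theorem renHom_surj : Function.Surjective (renHom (R := R) e) := by
  intro m
  obtain ⟨u, rfl⟩ := cls_surj m
  refine ⟨cls R (u.map e.symm), ?_⟩
  rw [renHom_cls]
  simp [Function.comp_def]

theorem cls_eq_of_conGen {R' : Set (List β × List β)} {N : Type} [Monoid N] (f : β → N)
    (hf : ∀ x y, (x, y) ∈ R' → (x.map f).prod = (y.map f).prod) {u v : List β}
    (h : cls R' u = cls R' v) : (u.map f).prod = (v.map f).prod := by
  have hf' : ∀ a b : FreeMonoid β, Rels R' a b → FreeMonoid.lift f a = FreeMonoid.lift f b := by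
    intro a b hab
    rw [lift_cls, lift_cls]
    exact hf _ _ hab
  have h1 := congrArg (PresentedMonoid.lift f hf') h
  have h2 : ∀ w : List β, PresentedMonoid.lift f hf' (cls R' w) = (w.map f).prod := by
    intro w
    have h0 : PresentedMonoid.lift f hf' (cls R' w) =
      FreeMonoid.lift f (FreeMonoid.ofList w) := rfl
    rw [h0, lift_cls]
    rfl
  rwa [h2, h2] at h1

theorem renHom_inj : Function.Injective (renHom (R := R) e) := by
  intro a b hab
  obtain ⟨u, rfl⟩ := cls_surj a
  obtain ⟨v, rfl⟩ := cls_surj b
  rw [renHom_cls, renHom_cls] at hab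
  have h1 := cls_eq_of_conGen (R' := ren e R) (fun t => cls R [e.symm t]) (by
    intro x y hxy
    have h2 := mem_ren e R hxy
    have h3 : ∀ w : List β, (w.map (fun t => cls R [e.symm t])).prod =
        cls R (w.map e.symm) := by
      intro w
      rw [← prod_of_cls, List.map_map]
      rfl
    rw [h3, h3]
    exact cls_eq_of_step (by
      have := step_rule (R := R) h2 []
      simpa using this)) hab
  simp only [List.map_map] at h1
  have h4 : ∀ w : List α, (w.map ((fun t => cls R [e.symm t]) ∘ e)).prod = cls R w := by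
    intro w
    rw [← prod_of_cls]
    congr 1
    apply List.map_congr_left
    intro t _
    simp
  rwa [h4, h4] at h1

/-- The isomorphism induced by renaming. -/
noncomputable def renEquiv : Mon R ≃* Mon (ren e R) :=
  MulEquiv.ofBijective (renHom e) ⟨renHom_inj e, renHom_surj e⟩

theorem renEquiv_cls (u : List α) : renEquiv e (cls R u) = cls (ren e R) (u.map e) :=
  renHom_cls e u

end

section

variable {M N : Type} [Monoid M] [Monoid N]

theorem isZeroOf_map (φ : M ≃* N) {z : M} (h : IsZeroOf z) : IsZeroOf (φ z) := by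
  intro n
  obtain ⟨m, rfl⟩ := φ.surjective n
  rw [← map_mul, ← map_mul, (h m).1, (h m).2]
  exact ⟨rfl, rfl⟩

theorem mem_pset_map (φ : M ≃* N) {a g : M} (h : g ∈ PSet a) : φ g ∈ PSet (φ a) := by
  intro z hz
  obtain ⟨y, rfl⟩ := φ.surjective z
  have hy : IsZeroOf y := by
    have := isZeroOf_map φ.symm hz
    simpa using this
  have h1 := h y hy
  refine ⟨fun h2 => ?_, fun h2 m hm => ?_⟩
  · rw [h1.1 (φ.injective h2)]
  · obtain ⟨m, rfl⟩ := φ.surjective m
    rw [← map_mul, ← map_mul] at hm
    rw [← map_mul]
    rw [h1.2 (fun h3 => h2 (by rw [h3])) m (φ.injective hm)]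

theorem cconj_map (φ : M ≃* N) {a b : M} (h : CConj a b) : CConj (φ a) (φ b) := by
  obtain ⟨g, hg, k, hk, h1, h2⟩ := h
  refine ⟨φ g, mem_pset_map φ hg, φ k, mem_pset_map φ hk, ?_, ?_⟩
  · rw [← map_mul, h1, map_mul]
  · rw [← map_mul, h2, map_mul]

theorem cconj_map_iff (φ : M ≃* N) {a b : M} : CConj (φ a) (φ b) ↔ CConj a b := by
  refine ⟨fun h => ?_, cconj_map φ⟩
  have := cconj_map φ.symm h
  simpa using this

end

end Pool.Agent.Helper88
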